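import Mathlib

/-!
Edge cuts of coset graphs: if `K` is generated by a subgroup `L` and an element `s`, then every
proper nonempty subset `X` of `K` which is a union of left cosets of `L` is left by at least `|L|`
of the arrows `x → x s`.
-/

set_option autoImplicit false
set_option linter.unusedSectionVars false

namespace Pool.Agent.E8helper62.HL

open Finset

attribute [local instance] Classical.propDecidable

variable {G : Type*} [Group G] [Fintype G]

/-- number of arrows `x → x s` leaving `X` -/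
noncomputable def dd (s : G) (X : Finset G) : ℕ := (X.filter fun x => x * s ∉ X).card

theorem dd_submod (s : G) (X Y : Finset G) : dd s (X ∩ Y) + dd s (X ∪ Y) ≤ dd s X + dd s Y := by
  have key : ∀ Z : Finset G, dd s Z = ∑ x : G, if x ∈ Z ∧ x * s ∉ Z then 1 else 0 := by
    intro Z
    rw [dd, Finset.card_eq_sum_ones, Finset.sum_filter, ← Finset.sum_filter,
      ← Finset.sum_filter]
    apply Finset.sum_congr _ (fun _ _ => rfl)
    ext x
    simp
  rw [key, key, key, key, ← Finset.sum_add_distrib, ← Finset.sum_add_distrib]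
  apply Finset.sum_le_sum
  intro x _
  simp only [Finset.mem_inter, Finset.mem_union]
  by_cases h1 : x ∈ X <;> by_cases h2 : x ∈ Y <;> by_cases h3 : x * s ∈ X <;>
    by_cases h4 : x * s ∈ Y <;> simp [h1, h2, h3, h4]

theorem dd_left (s : G) (X : Finset G) (g : G) :
    dd s (X.map (Equiv.mulLeft g).toEmbedding) = dd s X := by
  unfold dd
  rw [Finset.filter_map, Finset.card_map]
  congr 1
  ext x
  simp only [Finset.mem_filter, Function.comp]
  refine and_congr_right fun _ => not_congr ?_
  rw [Equiv.coe_toEmbedding, Equiv.coe_mulLeft, mul_assoc]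
  constructor
  · intro h
    obtain ⟨y, hy, hy'⟩ := Finset.mem_map.1 h
    have : y = x * s := by simpa using hy'
    rwa [← this]
  · intro h
    exact Finset.mem_map.2 ⟨x * s, h, by simp⟩

/-- complement inside the subgroup `K` -/
theorem dd_compl (s : G) (K : Subgroup G) (hs : s ∈ K) (X : Finset G) (hX : ∀ x ∈ X, x ∈ K) :
    dd s ((univ.filter fun x => x ∈ K) \ X) = dd s X := by
  set KK := (univ.filter fun x => x ∈ K) with hKK
  have hmem : ∀ x, x ∈ KK ↔ x ∈ K := by intro x; simp [hKK]
  have hxs : ∀ x, x * s ∈ KK ↔ x ∈ KK := by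
    intro x
    rw [hmem, hmem]
    exact Subgroup.mul_mem_cancel_right K hs
  -- arrows into `X`
  have e1 : dd s (KK \ X) = (univ.filter fun x => x ∉ X ∧ x * s ∈ X).card := by
    unfold dd
    congr 1
    ext x
    simp only [Finset.mem_filter, Finset.mem_sdiff, hxs, Finset.mem_univ, true_and]
    constructor
    · rintro ⟨⟨h1, h2⟩, h3⟩
      refine ⟨h2, ?_⟩
      by_contra h4
      exact h3 ⟨h1, h4⟩
    · rintro ⟨h1, h2⟩
      have h3 : x ∈ KK := (hxs x).1 ((hmem _).2 (hX _ h2))
      exact ⟨⟨h3, h1⟩, fun h4 => h4.2 h2⟩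
  have e2 : (univ.filter fun x => x * s ∈ X).card = X.card := by
    refine Finset.card_bij' (fun x _ => x * s) (fun x _ => x * s⁻¹) ?_ ?_ ?_ ?_
    · intro x hx; simpa using hx
    · intro x hx; simpa using hx
    · intro x _; simp
    · intro x _; simp
  have e3 : (univ.filter fun x => x * s ∈ X).card =
      (univ.filter fun x => x ∈ X ∧ x * s ∈ X).card +
      (univ.filter fun x => x ∉ X ∧ x * s ∈ X).card := by
    rw [← Finset.card_filter_add_card_filter_not (s := univ.filter fun x => x * s ∈ X)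
      (fun x => x ∈ X), Finset.filter_filter, Finset.filter_filter]
    congr 2 <;> (ext x; simp; tauto)
  have e4 : X.card = (univ.filter fun x => x ∈ X ∧ x * s ∈ X).card + dd s X := by
    rw [dd, ← Finset.card_filter_add_card_filter_not (s := X) (fun x => x * s ∈ X)]
    congr 2
    ext x; simp
  omega

theorem cut {L K : Subgroup G} {s : G} (hLK : L ≤ K) (hs : s ∈ K)
    (hgen : ∀ M : Subgroup G, L ≤ M → s ∈ M → K ≤ M) (X : Finset G)
    (hX : ∀ x ∈ X, x ∈ K) (hne : X.Nonempty) (hpr : ∃ y ∈ K, y ∉ X)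
    (hL : ∀ x ∈ X, ∀ l ∈ L, x * l ∈ X) :
    Nat.card L ≤ dd s X := by
  by_contra hlt
  push Not at hlt
  set KK := (univ.filter fun x => x ∈ K) with hKK
  have hmem : ∀ x, x ∈ KK ↔ x ∈ K := by intro x; simp [hKK]
  -- the family
  let P : Finset G → Prop := fun Y => (∀ x ∈ Y, x ∈ K) ∧ Y.Nonempty ∧ (∃ y ∈ K, y ∉ Y) ∧
    ∀ x ∈ Y, ∀ l ∈ L, x * l ∈ Y
  let N := Fintype.card G + 1
  obtain ⟨A, hA, hmin⟩ := Finset.exists_min_image (univ.filter P)
    (fun Y => dd s Y * N + Y.card) ⟨X, by simp [P]; exact ⟨hX, hne, hpr, hL⟩⟩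
  have hPA : P A := (Finset.mem_filter.1 hA).2
  obtain ⟨hAK, hAne, hApr, hAL⟩ := hPA
  have hcardN : ∀ Y : Finset G, Y.card < N := fun Y => Nat.lt_succ_of_le (Finset.card_le_univ Y)
  have hmin' : ∀ Y, P Y → dd s A * N + A.card ≤ dd s Y * N + Y.card := fun Y hY =>
    hmin Y (by simp only [Finset.mem_filter, Finset.mem_univ, true_and]; exact hY)
  have hd : ∀ Y, P Y → dd s A ≤ dd s Y := by
    intro Y hY
    by_contra h
    push Not at h
    have h1 := hmin' Y hY
    have h2 := hcardN Y
    have h3 : (dd s Y + 1) * N ≤ dd s A * N := Nat.mul_le_mul_right _ h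
    rw [Nat.add_mul, one_mul] at h3
    omega
  have hdX : dd s A < Nat.card L := (hd X ⟨hX, hne, hpr, hL⟩).trans_lt hlt
  -- at most half
  have hcompl : P (KK \ A) := by
    refine ⟨?_, ?_, ?_, ?_⟩
    · intro x hx
      exact (hmem x).1 (Finset.mem_sdiff.1 hx).1
    · obtain ⟨y, hy, hy'⟩ := hApr
      exact ⟨y, Finset.mem_sdiff.2 ⟨(hmem y).2 hy, hy'⟩⟩
    · obtain ⟨y, hy⟩ := hAne
      exact ⟨y, hAK y hy, fun h => (Finset.mem_sdiff.1 h).2 hy⟩
    · intro x hx l hl
      rw [Finset.mem_sdiff, hmem] at hx ⊢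
      refine ⟨K.mul_mem hx.1 (hLK hl), fun h => hx.2 ?_⟩
      have := hAL _ h l⁻¹ (L.inv_mem hl)
      simpa using this
  have hhalf : 2 * A.card ≤ KK.card := by
    have h1 := hmin' _ hcompl
    rw [dd_compl s K hs A hAK] at h1
    have h2 : (KK \ A).card = KK.card - A.card :=
      Finset.card_sdiff_of_subset (fun x hx => (hmem x).2 (hAK x hx))
    have h3 : A.card ≤ KK.card := Finset.card_le_card (fun x hx => (hmem x).2 (hAK x hx))
    omega
  -- translates
  have htr : ∀ g ∈ K, (∃ z ∈ A, g * z ∈ A) → ∀ z ∈ A, g * z ∈ A := by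
    intro g hg hex
    set gA := A.map (Equiv.mulLeft g).toEmbedding with hgA
    have hmg : ∀ x, x ∈ gA ↔ g⁻¹ * x ∈ A := by
      intro x
      rw [hgA, Finset.mem_map]
      constructor
      · rintro ⟨y, hy, rfl⟩; simpa using hy
      · intro h; exact ⟨g⁻¹ * x, h, by simp⟩
    have hcardg : gA.card = A.card := Finset.card_map _
    have hdg : dd s gA = dd s A := dd_left s A g
    by_contra hno
    push Not at hno
    obtain ⟨z, hz, hz'⟩ := hno
    obtain ⟨w, hw, hw'⟩ := hex
    have hwi : g * w ∈ A ∩ gA := by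
      rw [Finset.mem_inter, hmg]; exact ⟨hw', by simpa using hw⟩
    have hzu : g * z ∈ gA := by rw [hmg]; simpa using hz
    have hlt2 : (A ∩ gA).card < A.card := by
      rw [← hcardg]
      refine Finset.card_lt_card ⟨Finset.inter_subset_right, fun h => hz' ?_⟩
      exact (Finset.mem_inter.1 (h hzu)).1
    have hun : (A ∪ gA).card + (A ∩ gA).card = A.card + gA.card := Finset.card_union_add_card_inter _ _
    have hpos : 0 < (A ∩ gA).card := Finset.card_pos.2 ⟨_, hwi⟩
    have hgL : ∀ x ∈ gA, ∀ l ∈ L, x * l ∈ gA := by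
      intro x hx l hl
      rw [hmg] at hx ⊢
      rw [← mul_assoc]
      exact hAL _ hx l hl
    have hgK : ∀ x ∈ gA, x ∈ K := by
      intro x hx
      rw [hmg] at hx
      have := K.mul_mem hg (hAK _ hx)
      simpa using this
    have hPi : P (A ∩ gA) := by
      refine ⟨fun x hx => hAK x (Finset.mem_inter.1 hx).1, ⟨_, hwi⟩, ?_, ?_⟩
      · obtain ⟨y, hy, hy'⟩ := hApr
        exact ⟨y, hy, fun h => hy' (Finset.mem_inter.1 h).1⟩
      · intro x hx l hl
        rw [Finset.mem_inter] at hx ⊢
        exact ⟨hAL x hx.1 l hl, hgL x hx.2 l hl⟩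
    have hPu : P (A ∪ gA) := by
      refine ⟨?_, ⟨w, Finset.mem_union_left _ hw⟩, ?_, ?_⟩
      · intro x hx
        rcases Finset.mem_union.1 hx with h | h
        · exact hAK x h
        · exact hgK x h
      · by_contra hall
        push Not at hall
        have : KK.card ≤ (A ∪ gA).card := Finset.card_le_card (fun x hx => hall x ((hmem x).1 hx))
        omega
      · intro x hx l hl
        rw [Finset.mem_union] at hx ⊢
        rcases hx with h | h
        · exact Or.inl (hAL x h l hl)
        · exact Or.inr (hgL x h l hl)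
    have h1 := hmin' _ hPi
    have h2 := hd _ hPu
    have h3 := dd_submod s A gA
    have h5 : dd s A < dd s (A ∩ gA) := by
      by_contra h
      push Not at h
      have : dd s (A ∩ gA) * N ≤ dd s A * N := Nat.mul_le_mul_right _ h
      omega
    omega
  -- `A = a • (subgroup)`
  obtain ⟨a, ha⟩ := hAne
  have haK := hAK a ha
  let M : Subgroup G :=
    { carrier := {x | x ∈ K ∧ ∀ z, z ∈ A → (a * x * a⁻¹) * z ∈ A}
      mul_mem' := by
        rintro x y ⟨hx, hx'⟩ ⟨hy, hy'⟩
        refine ⟨K.mul_mem hx hy, fun z hz => ?_⟩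
        have := hx' _ (hy' z hz)
        have e : a * (x * y) * a⁻¹ * z = a * x * a⁻¹ * (a * y * a⁻¹ * z) := by group
        rw [e]; exact this
      one_mem' := ⟨K.one_mem, fun z hz => by simpa using hz⟩
      inv_mem' := by
        rintro x ⟨hx, hx'⟩
        refine ⟨K.inv_mem hx, ?_⟩
        apply htr _ (K.mul_mem (K.mul_mem haK (K.inv_mem hx)) (K.inv_mem haK))
        refine ⟨a * x * a⁻¹ * a, hx' a ha, ?_⟩
        have e : a * x⁻¹ * a⁻¹ * (a * x * a⁻¹ * a) = a := by group
        rw [e]; exact ha }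
  have hM : ∀ x, x ∈ M ↔ a * x ∈ A := by
    intro x
    constructor
    · rintro ⟨_, hx'⟩
      have := hx' a ha
      simpa [mul_assoc] using this
    · intro h
      have hxK : x ∈ K := by
        have := K.mul_mem (K.inv_mem haK) (hAK _ h)
        simpa using this
      refine ⟨hxK, htr _ (K.mul_mem (K.mul_mem haK hxK) (K.inv_mem haK)) ⟨a, ha, ?_⟩⟩
      simpa [mul_assoc] using h
  have hLM : L ≤ M := by
    intro l hl
    rw [hM]
    exact hAL a ha l hl
  have hsM : s ∉ M := by
    intro h
    obtain ⟨y, hy, hy'⟩ := hApr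
    have hKM := hgen M hLM h
    apply hy'
    have := (hM (a⁻¹ * y)).1 (hKM (K.mul_mem (K.inv_mem haK) hy))
    simpa using this
  -- all arrows leave
  have hall : dd s A = A.card := by
    unfold dd
    rw [Finset.filter_true_of_mem]
    intro x hx hxs
    apply hsM
    have h1 : a⁻¹ * x ∈ M := by rw [hM]; simpa using hx
    have h2 : a⁻¹ * (x * s) ∈ M := by rw [hM]; simpa using hxs
    have h3 := M.mul_mem (M.inv_mem h1) h2
    simpa [mul_assoc] using h3
  have hLc : Nat.card L ≤ A.card := by
    have : Nat.card L = (univ.filter fun x => x ∈ L).card := by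
      rw [Nat.card_eq_fintype_card, Fintype.card_subtype]
    rw [this]
    refine Finset.card_le_card_of_injOn (fun l => a * l) ?_ ?_
    · intro l hl
      exact hAL a ha l (by simpa using hl)
    · intro x _ y _ h
      simpa using h
  omega

end Pool.Agent.E8helper62.HL
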