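import Pool.Agent.E8helper62.HL.Match

/-!
From the connected even matching to a single cycle which uses edges of the matching and steps
inside the cosets.
-/

set_option autoImplicit false
set_option linter.unusedSectionVars false

namespace Pool.Agent.E8helper62.HL

open Finset

attribute [local instance] Classical.propDecidable

/-- a set of even size has an involution without fixed points -/
theorem even_inv {α : Type*} : ∀ (n : ℕ) (s : Finset α), s.card = 2 * n →
    ∃ f : α → α, ∀ x ∈ s, f x ∈ s ∧ f x ≠ x ∧ f (f x) = x := by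
  intro n
  induction n with
  | zero =>
    intro s hs
    have : s = ∅ := Finset.card_eq_zero.1 (by omega)
    subst this
    exact ⟨id, by simp⟩
  | succ n ih =>
    intro s hs
    obtain ⟨a, ha, b, hb, hab⟩ := Finset.one_lt_card.1 (show 1 < s.card by omega)
    obtain ⟨f, hf⟩ := ih ((s.erase a).erase b) (by
      rw [Finset.card_erase_of_mem (Finset.mem_erase.2 ⟨Ne.symm hab, hb⟩),
        Finset.card_erase_of_mem ha]
      omega)
    refine ⟨fun x => if x = a then b else if x = b then a else f x, ?_⟩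
    intro x hx
    by_cases hxa : x = a
    · subst hxa
      simp only [if_true]
      refine ⟨hb, Ne.symm hab, ?_⟩
      rw [if_neg (Ne.symm hab)]
    · by_cases hxb : x = b
      · subst hxb
        simp only [if_neg hxa, if_true]
        exact ⟨ha, hab, trivial⟩
      · obtain ⟨h1, h2, h3⟩ := hf x (by
          rw [Finset.mem_erase, Finset.mem_erase]; exact ⟨hxb, hxa, hx⟩)
        rw [Finset.mem_erase, Finset.mem_erase] at h1
        simp only [if_neg hxa, if_neg hxb, if_neg h1.2.1, if_neg h1.1]
        exact ⟨h1.2.2, h2, h3⟩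

/-- two involutions without fixed points: the rotations separate `x` and `f x` -/
theorem not_same {α : Type*} (f g : Equiv.Perm α) (hf : f * f = 1) (hg : g * g = 1)
    (hf1 : ∀ x, f x ≠ x) (hg1 : ∀ x, g x ≠ x) (x : α) : ¬ (g * f).SameCycle x (f x) := by
  have hfi : f⁻¹ = f := inv_eq_of_mul_eq_one_left hf
  have hgi : g⁻¹ = g := inv_eq_of_mul_eq_one_left hg
  have hconj : f * (g * f) * f⁻¹ = (g * f)⁻¹ := by
    rw [mul_inv_rev, hfi, hgi, mul_assoc, mul_assoc, hf, mul_one]
  have hpow : ∀ l : ℤ, ∀ y, f (((g * f) ^ l) y) = ((g * f) ^ (-l)) (f y) := by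
    intro l y
    have h1 : f * (g * f) ^ l * f⁻¹ = (g * f) ^ (-l) := by
      rw [← conj_zpow, hconj, inv_zpow, zpow_neg]
    have h2 : f * (g * f) ^ l = (g * f) ^ (-l) * f := by
      rw [← h1, inv_mul_cancel_right]
    exact congrArg (fun p : Equiv.Perm α => p y) h2
  rintro ⟨i, hi⟩
  rcases Int.even_or_odd' i with ⟨l, h | h⟩
  · apply hf1 (((g * f) ^ l) x)
    rw [hpow, ← hi, h, ← Equiv.Perm.mul_apply, ← zpow_add]
    congr 2
    ring
  · apply hg1 (f (((g * f) ^ l) x))
    have h1 : f (((g * f) ^ l) x) = ((g * f) ^ (l + 1)) x := by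
      rw [hpow, ← hi, h, ← Equiv.Perm.mul_apply, ← zpow_add]
      congr 2
      ring
    have h2 : ((g * f) ^ (l + 1)) x = g (f (((g * f) ^ l) x)) := by
      rw [add_comm, zpow_add, zpow_one, Equiv.Perm.mul_apply, Equiv.Perm.mul_apply]
    rw [← h2, h1]

/-- common transversal of the orbits of two involutions without fixed points -/
theorem transversal {α : Type*} (f g : Equiv.Perm α) (hf : f * f = 1) (hg : g * g = 1)
    (hf1 : ∀ x, f x ≠ x) (hg1 : ∀ x, g x ≠ x) :
    ∃ O : Set α, (∀ x, x ∈ O ↔ f x ∉ O) ∧ ∀ x, x ∈ O ↔ g x ∉ O := by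
  let Q := Quotient (Equiv.Perm.SameCycle.setoid (g * f))
  let cls : α → Q := fun x => Quotient.mk _ x
  have hcls : ∀ x y, cls x = cls y ↔ (g * f).SameCycle x y := fun x y => Quotient.eq
  have hff : ∀ x, f (f x) = x := fun x => congrArg (fun p : Equiv.Perm α => p x) hf
  have hgg : ∀ x, g (g x) = x := fun x => congrArg (fun p : Equiv.Perm α => p x) hg
  have hne : ∀ x, cls x ≠ cls (f x) := fun x h => not_same f g hf hg hf1 hg1 x ((hcls _ _).1 h)
  let r : Q → Q → Prop := WellOrderingRel
  have htri : ∀ a b : Q, a ≠ b → (r a b ↔ ¬ r b a) := by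
    intro a b hab
    constructor
    · intro h h'
      exact asymm h h'
    · intro h
      rcases trichotomous_of r a b with h1 | h1 | h1
      · exact h1
      · exact absurd h1 hab
      · exact absurd h1 h
  refine ⟨{x | r (cls x) (cls (f x))}, ?_, ?_⟩
  · intro x
    simp only [Set.mem_ofPred_eq, hff]
    exact htri _ _ (hne x)
  · intro x
    have h1 : cls (g x) = cls (f x) := by
      rw [hcls]
      have : g x = (g * f) (f x) := by rw [Equiv.Perm.mul_apply, hff]
      rw [this]
      exact (Equiv.Perm.sameCycle_apply_left).2 (Equiv.Perm.SameCycle.refl _ _)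
    have h2 : cls (f (g x)) = cls x := by
      rw [hcls]
      have : x = (g * f) (f (g x)) := by rw [Equiv.Perm.mul_apply, hff, hgg]
      conv_rhs => rw [this]
      exact (Equiv.Perm.sameCycle_apply_right).2 (Equiv.Perm.SameCycle.refl _ _)
    simp only [Set.mem_ofPred_eq]
    rw [h1, h2]
    exact htri _ _ (hne x)

section merge

variable {α : Type*} [Fintype α]

theorem merge_aux (σ : Equiv.Perm α) {x y : α} (hxy : ¬ σ.SameCycle x y) {z : α}
    (hz : σ.SameCycle x z) : (σ * Equiv.swap x y).SameCycle (σ x) z := by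
  have hz' : σ.SameCycle (σ x) z := (Equiv.Perm.sameCycle_apply_left).2 hz
  have hex : ∃ k : ℕ, (σ ^ k) (σ x) = z := hz'.exists_nat_pow_eq
  set k := Nat.find hex with hk
  have hk1 : (σ ^ k) (σ x) = z := Nat.find_spec hex
  have hk2 : ∀ j < k, (σ ^ j) (σ x) ≠ z := fun j hj => Nat.find_min hex hj
  have hx : ∀ j < k, (σ ^ j) (σ x) ≠ x := by
    intro j hj h
    apply hk2 (k - j - 1) (by omega)
    rw [← hk1]
    have e : k = (k - j - 1) + (1 + j) := by omega
    conv_rhs => rw [e]
    rw [pow_add, Equiv.Perm.mul_apply, pow_add, Equiv.Perm.mul_apply, h, pow_one]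
  have hy : ∀ j, (σ ^ j) (σ x) ≠ y := by
    intro j h
    apply hxy
    exact ⟨j + 1, by rw [← h, zpow_add, zpow_one, zpow_natCast, Equiv.Perm.mul_apply]⟩
  have key : ∀ j ≤ k, ((σ * Equiv.swap x y) ^ j) (σ x) = (σ ^ j) (σ x) := by
    intro j
    induction j with
    | zero => intro _; rfl
    | succ j ih =>
      intro hj
      rw [pow_succ', Equiv.Perm.mul_apply, ih (by omega), Equiv.Perm.mul_apply,
        Equiv.swap_apply_of_ne_of_ne (hx j (by omega)) (hy j), pow_succ', Equiv.Perm.mul_apply]
  exact ⟨k, by rw [zpow_natCast, key k le_rfl, hk1]⟩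

theorem merge_same (σ : Equiv.Perm α) {x y : α} (hxy : ¬ σ.SameCycle x y) {z : α}
    (hz : σ.SameCycle x z ∨ σ.SameCycle y z) : (σ * Equiv.swap x y).SameCycle x z := by
  have h1 : (σ * Equiv.swap x y).SameCycle (σ x) x :=
    merge_aux σ hxy (Equiv.Perm.SameCycle.refl _ _)
  rcases hz with hz | hz
  · exact h1.symm.trans (merge_aux σ hxy hz)
  · have h2 : (σ * Equiv.swap y x).SameCycle (σ y) z :=
      merge_aux σ (fun h => hxy h.symm) hz
    rw [Equiv.swap_comm] at h2
    have h3 : (σ * Equiv.swap x y) x = σ y := by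
      rw [Equiv.Perm.mul_apply, Equiv.swap_apply_left]
    have h4 : (σ * Equiv.swap x y).SameCycle x (σ y) := by
      rw [← h3]
      exact (Equiv.Perm.sameCycle_apply_right).2 (Equiv.Perm.SameCycle.refl _ _)
    exact h4.trans h2

end merge

end Pool.Agent.E8helper62.HL
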