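import Pool.Agent.E8helper62.HL.Rot

/-!
Labels inside the cosets, and the closed listing sequence.
-/

set_option autoImplicit false
set_option linter.unusedSectionVars false

namespace Pool.Agent.E8helper62.HL

open Finset

attribute [local instance] Classical.propDecidable

variable {G : Type*} [Group G]

/-- the position of an element in its left coset -/
noncomputable def pos [Fintype G] (H : Subgroup G) (x : G) : ℕ :=
  (Finite.equivFin H ⟨(Quotient.out (x : G ⧸ H))⁻¹ * x,
    QuotientGroup.eq.1 (Quotient.out_eq' (x : G ⧸ H))⟩).val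

theorem pos_lt [Fintype G] (H : Subgroup G) (x : G) : pos H x < Nat.card H :=
  (Finite.equivFin H _).isLt

theorem pos_inj [Fintype G] (H : Subgroup G) {x y : G} (h : (x : G ⧸ H) = (y : G ⧸ H))
    (hp : pos H x = pos H y) : x = y := by
  unfold pos at hp
  have h1 := (Finite.equivFin H).injective (Fin.ext hp)
  have h2 := congrArg Subtype.val h1
  simp only [h] at h2
  exact mul_left_cancel h2

theorem exists_io' [Fintype G] (H : Subgroup G) (A : Set G) (hA : ∀ x ∈ A, x⁻¹ ∈ A)
    (hH : 18 ≤ Nat.card H) (hgen : ∀ M : Subgroup G, H ≤ M → A ⊆ M → M = ⊤) :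
    ∃ io : G → G, EvenMatching H A 35 io := by
  set m := Nat.card H / 18 with hm
  have hm1 : 1 ≤ m := by omega
  refine exists_io H A (fun x => pos H x / m) hA 35 m ?_ ?_ (by omega) hgen
  · intro x

    rw [Nat.div_lt_iff_lt_mul hm1]
    have := pos_lt H x
    omega
  · intro v a
    have : (univ.filter fun g : G => (g : G ⧸ H) = v ∧ pos H g / m = a).card ≤
        (Finset.Ico (a * m) (a * m + m)).card := by
      refine Finset.card_le_card_of_injOn (pos H) ?_ ?_
      · intro x hx
        rw [Finset.mem_coe, Finset.mem_filter] at hx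
        rw [Finset.mem_coe, Finset.mem_Ico]
        have h1 := Nat.div_add_mod (pos H x) m
        have h2 := Nat.mod_lt (pos H x) hm1
        rw [hx.2.2, mul_comm] at h1
        omega
      · intro x hx y hy hxy
        rw [Finset.mem_coe, Finset.mem_filter] at hx hy
        exact pos_inj H (hx.2.1.trans hy.2.1.symm) hxy
    rw [Nat.card_Ico] at this
    omega

/-- a closed sequence of elements gives a closed listing -/
theorem listing_of_tour [Finite G] {A : Set G} {f : ℕ → G}
    (h1 : ∀ i < Nat.card G, ∀ j < Nat.card G, f i = f j → i = j)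
    (h2 : f (Nat.card G) = f 0) (h3 : ∀ j < Nat.card G, (f j)⁻¹ * f (j + 1) ∈ A) :
    ∃ a : Fin (Nat.card G) → G, (∀ i, a i ∈ A) ∧
      Function.Injective (fun k : Fin (Nat.card G) => ((List.ofFn a).take (k.val + 1)).prod) ∧
      (List.ofFn a).prod = 1 := by
  let a : Fin (Nat.card G) → G := fun i => (f i.val)⁻¹ * f (i.val + 1)
  have hprod : ∀ k, k ≤ Nat.card G → ((List.ofFn a).take k).prod = (f 0)⁻¹ * f k := by
    intro k
    induction k with
    | zero => intro _; simp
    | succ k ih =>
      intro hk
      have hk' : k < (List.ofFn a).length := by rw [List.length_ofFn]; omega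
      rw [List.take_succ_eq_append_getElem hk', List.prod_append, ih (by omega)]
      simp only [List.getElem_ofFn, List.prod_cons, List.prod_nil, mul_one, a]
      group
  refine ⟨a, fun i => h3 _ i.isLt, ?_, ?_⟩
  · intro i j hij
    have hij' : ((List.ofFn a).take (i.val + 1)).prod = ((List.ofFn a).take (j.val + 1)).prod := hij
    rw [hprod _ (by omega), hprod _ (by omega)] at hij'
    have hf := mul_left_cancel hij'
    have hi := i.isLt
    have hj := j.isLt
    apply Fin.ext
    rcases Nat.lt_or_ge (i.val + 1) (Nat.card G) with ha | ha <;>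
      rcases Nat.lt_or_ge (j.val + 1) (Nat.card G) with hb | hb
    · have := h1 _ ha _ hb hf
      omega
    · have e : j.val + 1 = Nat.card G := by omega
      rw [e, h2] at hf
      have := h1 _ ha _ (by omega) hf
      omega
    · have e : i.val + 1 = Nat.card G := by omega
      rw [e, h2] at hf
      have := h1 _ (by omega) _ hb hf
      omega
    · omega
  · have h1' := hprod (Nat.card G) le_rfl
    rw [List.take_of_length_le (by rw [List.length_ofFn])] at h1'
    rw [h1', h2, inv_mul_cancel]

theorem exists_listing [Finite G] (H : Subgroup G) (A : Set G) (hA : ∀ x ∈ A, x⁻¹ ∈ A)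
    (hgen : Subgroup.closure A = ⊤)
    (hB : Nat.card H + 17 ≤ 2 * Set.ncard {x : G | x ∈ A ∧ x ∈ H ∧ x ≠ 1}) :
    ∃ a : Fin (Nat.card G) → G, (∀ i, a i ∈ A) ∧
      Function.Injective (fun k : Fin (Nat.card G) => ((List.ofFn a).take (k.val + 1)).prod) ∧
      (List.ofFn a).prod = 1 := by
  have : Fintype G := Fintype.ofFinite G
  have hBcard : Set.ncard {x : G | x ∈ A ∧ x ∈ H ∧ x ≠ 1} =
      (univ.filter fun x : G => (x ∈ A ∧ x ∈ H) ∧ x ≠ 1).card := by
    rw [← Set.ncard_coe_finset]
    congr 1
    ext x
    simp [and_assoc]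
  have hBH : Set.ncard {x : G | x ∈ A ∧ x ∈ H ∧ x ≠ 1} ≤ Nat.card H - 1 := by
    have h1 : Set.ncard {x : G | x ∈ A ∧ x ∈ H ∧ x ≠ 1} ≤ Set.ncard ((H : Set G) \ {1}) := by
      apply Set.ncard_le_ncard
      · rintro x ⟨_, h, h'⟩
        exact ⟨h, h'⟩
      · exact Set.toFinite _
    have h2 : Set.ncard ((H : Set G) \ {1}) = Nat.card H - 1 := by
      rw [Set.ncard_diff_singleton_of_mem H.one_mem]
      rfl
    omega
  have hHpos : 0 < Nat.card H := Nat.card_pos
  have hH : 19 ≤ Nat.card H := by omega
  have hHG : Nat.card H ≤ Nat.card G := Subgroup.card_le_card_group H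
  obtain ⟨io, hio⟩ := exists_io' H A hA (by omega) (by
    intro M _ hM
    rw [eq_top_iff, ← hgen, Subgroup.closure_le]
    exact hM)
  obtain ⟨f, h1, h2, h3⟩ := exists_good H A hA hio (by rw [← hBcard]; omega) (by omega)
  exact listing_of_tour h1 h2 h3

end Pool.Agent.E8helper62.HL
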