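import Mathlib

/-!
A matroidal form of Haxell's theorem (for vector configurations): a basis whose elements have
pairwise disjoint sets of ends.
-/

set_option autoImplicit false
set_option linter.unusedSectionVars false

namespace Pool.Agent.E8helper62.HL

open Finset

attribute [local instance] Classical.propDecidable

variable {F W E V : Type*} [Field F] [AddCommGroup W] [Module F W] [Fintype E]

section basics

variable (F) (x : E → W)

/-- the span of a set of vectors of the configuration -/
def sp (R : Finset E) : Submodule F W := Submodule.span F (x '' (R : Set E))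

/-- independence -/
def Idp (R : Finset E) : Prop := LinearIndepOn F x (R : Set E)

variable {F} {x}

theorem sp_mono {R R' : Finset E} (h : R ⊆ R') : sp F x R ≤ sp F x R' :=
  Submodule.span_mono (Set.image_mono (Finset.coe_subset.2 h))

theorem mem_sp {R : Finset E} {e : E} (h : e ∈ R) : x e ∈ sp F x R :=
  Submodule.subset_span ⟨e, h, rfl⟩

theorem sp_insert (R : Finset E) (e : E) :
    sp F x (insert e R) = Submodule.span F (insert (x e) (x '' (R : Set E))) := by
  unfold sp
  rw [Finset.coe_insert, Set.image_insert_eq]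

theorem sp_le {R : Finset E} {M : Submodule F W} (h : ∀ e ∈ R, x e ∈ M) : sp F x R ≤ M := by
  unfold sp
  rw [Submodule.span_le]
  rintro _ ⟨e, he, rfl⟩
  exact h e he

theorem exch {R : Finset E} {e d : E} (h1 : x e ∈ sp F x (insert d R)) (h2 : x e ∉ sp F x R) :
    x d ∈ sp F x (insert e R) := by
  rw [sp_insert] at h1 ⊢
  exact mem_span_insert_exchange h1 h2

theorem Idp.mono {R R' : Finset E} (h : Idp F x R') (hs : R ⊆ R') : Idp F x R :=
  LinearIndepOn.mono h (Finset.coe_subset.2 hs)

theorem Idp.insert {R : Finset E} {e : E} (h : Idp F x R) (he : x e ∉ sp F x R) :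
    Idp F x (insert e R) := by
  unfold Idp
  rw [Finset.coe_insert]
  exact LinearIndepOn.insert h he

theorem Idp.notMem {R : Finset E} {d : E} (h : Idp F x R) (hd : d ∈ R) :
    x d ∉ sp F x (R.erase d) := by
  have := LinearIndepOn.notMem_span h (Finset.mem_coe.2 hd)
  unfold sp
  rwa [Finset.coe_erase]

/-- the exchange used in the augmentation -/
theorem exch_set {I A N : Finset E} {v : E} (hI : Idp F x I) (hAI : A ⊆ I)
    (h1 : x v ∈ sp F x A) (h2 : x v ∉ sp F x (A \ N)) :
    ∃ d ∈ A, d ∈ N ∧ x v ∉ sp F x (I.erase d) ∧ x d ∈ sp F x (insert v (A.erase d)) := by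
  let P : Finset E → Prop := fun T => T ⊆ A ∩ N ∧ x v ∈ sp F x ((A \ N) ∪ T)
  have hA : (A \ N) ∪ (A ∩ N) = A := Finset.sdiff_union_inter A N
  obtain ⟨T, hT, hmin⟩ := Finset.exists_min_image (univ.filter P) (fun T => T.card)
    ⟨A ∩ N, by
      simp only [Finset.mem_filter, Finset.mem_univ, true_and]
      exact ⟨Finset.Subset.refl _, by rw [hA]; exact h1⟩⟩
  obtain ⟨hTs, hTv⟩ : P T := (Finset.mem_filter.1 hT).2
  have hTne : T.Nonempty := by
    rw [Finset.nonempty_iff_ne_empty]
    intro h
    rw [h, Finset.union_empty] at hTv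
    exact h2 hTv
  obtain ⟨d, hd⟩ := hTne
  have hdA := Finset.mem_inter.1 (hTs hd)
  set B := (A \ N) ∪ T.erase d with hB
  have hBv : x v ∉ sp F x B := by
    intro h
    have h3 := hmin (T.erase d) (by
      simp only [Finset.mem_filter, Finset.mem_univ, true_and]
      exact ⟨(Finset.erase_subset _ _).trans hTs, h⟩)
    have h4 := Finset.card_erase_lt_of_mem hd
    omega
  have hins : (A \ N) ∪ T = insert d B := by
    ext e
    simp only [hB, Finset.mem_union, Finset.mem_insert, Finset.mem_erase]
    constructor
    · rintro (h | h)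
      · exact Or.inr (Or.inl h)
      · by_cases he : e = d
        · exact Or.inl he
        · exact Or.inr (Or.inr ⟨he, h⟩)
    · rintro (rfl | h | h)
      · exact Or.inr hd
      · exact Or.inl h
      · exact Or.inr h.2
  rw [hins] at hTv
  have hBA : B ⊆ A.erase d := by
    intro e he
    rw [hB, Finset.mem_union, Finset.mem_sdiff, Finset.mem_erase] at he
    rw [Finset.mem_erase]
    rcases he with h | h
    · exact ⟨fun e' => h.2 (e' ▸ hdA.2), h.1⟩
    · exact ⟨h.1, (Finset.mem_inter.1 (hTs h.2)).1⟩
  have hd' := exch hTv hBv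
  refine ⟨d, hdA.1, hdA.2, ?_, sp_mono (Finset.insert_subset_insert _ hBA) hd'⟩
  intro h
  apply hI.notMem (hAI hdA.1)
  have : sp F x (insert v B) ≤ sp F x (I.erase d) := by
    apply sp_le
    intro e he
    rcases Finset.mem_insert.1 he with rfl | he
    · exact h
    · exact mem_sp (Finset.erase_subset_erase _ hAI (hBA he))
  exact this hd'

theorem sp_swap {A : Finset E} {v d : E} (_ : d ∈ A) (h1 : x v ∈ sp F x A)
    (h2 : x d ∈ sp F x (insert v (A.erase d))) :
    sp F x (insert v (A.erase d)) = sp F x A := by
  apply le_antisymm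
  · apply sp_le
    intro e he
    rcases Finset.mem_insert.1 he with rfl | he
    · exact h1
    · exact mem_sp (Finset.mem_of_mem_erase he)
  · apply sp_le
    intro e he
    by_cases hed : e = d
    · rw [hed]; exact h2
    · exact mem_sp (Finset.mem_insert_of_mem (Finset.mem_erase.2 ⟨hed, he⟩))

end basics

variable (F) (x : E → W) (en : E → Finset V)

/-- the elements of `I` in conflict with `v` -/
noncomputable def NN (I : Finset E) (v : E) : Finset E := I.filter fun d => ¬ Disjoint (en v) (en d)

/-- all conflicts so far -/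
noncomputable def DD (I : Finset E) : List E → Finset E
  | [] => ∅
  | v :: vs => DD I vs ∪ NN en I v

def Good (I : Finset E) : Prop :=
  Idp F x I ∧ ∀ a ∈ I, ∀ b ∈ I, a ≠ b → Disjoint (en a) (en b)

def Valid (I : Finset E) : List E → Prop
  | [] => True
  | v :: vs => Valid I vs ∧ x v ∉ sp F x (I \ DD en I vs) ∧ (∀ u ∈ vs, Disjoint (en v) (en u)) ∧
      (∀ d ∈ DD en I vs, Disjoint (en v) (en d)) ∧ (NN en I v).Nonempty

/-- the improvement alternative -/
def Improve (I : Finset E) (vs : List E) : Prop :=
  ∃ pre v post, ∃ I' : Finset E, vs = pre ++ v :: post ∧ Good F x en I' ∧ I'.card = I.card ∧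
    DD en I post ⊆ I' ∧ sp F x (I' \ DD en I post) = sp F x (I \ DD en I post) ∧
    (∀ u ∈ post, NN en I' u = NN en I u) ∧ (NN en I' v).card < (NN en I v).card

variable {F} {x} {en}

theorem NN_subset (I : Finset E) (v : E) : NN en I v ⊆ I := Finset.filter_subset _ _

theorem DD_subset (I : Finset E) (vs : List E) : DD en I vs ⊆ I := by
  induction vs with
  | nil => simp [DD]
  | cons v vs ih => rw [DD]; exact Finset.union_subset ih (NN_subset I v)

theorem DD_disj {I : Finset E} {vs : List E} {v : E} (h : ∀ d ∈ DD en I vs, Disjoint (en v) (en d)) :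
    Disjoint (DD en I vs) (NN en I v) := by
  rw [Finset.disjoint_left]
  intro d hd hd'
  exact (Finset.mem_filter.1 hd').2 (h d hd)

theorem DD_card {I : Finset E} {vs : List E} {v : E} (h : ∀ d ∈ DD en I vs, Disjoint (en v) (en d)) :
    (DD en I (v :: vs)).card = (DD en I vs).card + (NN en I v).card := by
  rw [DD, Finset.card_union_of_disjoint (DD_disj h)]

theorem DD_congr {I I' : Finset E} {vs : List E} (h : ∀ u ∈ vs, NN en I' u = NN en I u) :
    DD en I' vs = DD en I vs := by
  induction vs with
  | nil => rfl
  | cons v vs ih =>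
    rw [DD, DD, ih (fun u hu => h u (List.mem_cons_of_mem _ hu)), h v List.mem_cons_self]

theorem DD_mono_append (I : Finset E) (pre post : List E) :
    DD en I post ⊆ DD en I (pre ++ post) := by
  induction pre with
  | nil => simp
  | cons v pre ih =>
    intro j hj
    rw [List.cons_append, DD]
    exact Finset.mem_union_left _ (ih hj)

/-- equality of spans passes to smaller sets of conflicts -/
theorem sp_congr {I I' D D' : Finset E} (hD : D' ⊆ D) (h1 : D ⊆ I) (h2 : D ⊆ I')
    (h : sp F x (I' \ D) = sp F x (I \ D)) : sp F x (I' \ D') = sp F x (I \ D') := by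
  have key : ∀ I₁ I₂ : Finset E, D ⊆ I₁ → D ⊆ I₂ → sp F x (I₁ \ D) = sp F x (I₂ \ D) →
      sp F x (I₁ \ D') ≤ sp F x (I₂ \ D') := by
    intro I₁ I₂ _ hI2 he
    apply sp_le
    intro e he'
    rw [Finset.mem_sdiff] at he'
    by_cases heD : e ∈ D
    · exact mem_sp (Finset.mem_sdiff.2 ⟨hI2 heD, he'.2⟩)
    · have : x e ∈ sp F x (I₂ \ D) := by
        rw [← he]; exact mem_sp (Finset.mem_sdiff.2 ⟨he'.1, heD⟩)
      exact sp_mono (Finset.sdiff_subset_sdiff (Finset.Subset.refl _) hD) this
  exact le_antisymm (key I' I h2 h1 h) (key I I' h1 h2 h.symm)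

theorem valid_congr {I I' : Finset E} {vs : List E}
    (h : ∀ u ∈ vs, NN en I' u = NN en I u) (h2 : DD en I vs ⊆ I')
    (h3 : sp F x (I' \ DD en I vs) = sp F x (I \ DD en I vs))
    (hv : Valid F x en I vs) : Valid F x en I' vs := by
  induction vs with
  | nil => trivial
  | cons v vs ih =>
    have hN : ∀ u ∈ vs, NN en I' u = NN en I u := fun u hu => h u (List.mem_cons_of_mem _ hu)
    have hD : DD en I' vs = DD en I vs := DD_congr hN
    have hsub : DD en I vs ⊆ DD en I (v :: vs) := by
      intro j hj
      rw [DD]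
      exact Finset.mem_union_left _ hj
    have h2' : DD en I vs ⊆ I' := hsub.trans h2
    have h3' : sp F x (I' \ DD en I vs) = sp F x (I \ DD en I vs) :=
      sp_congr hsub (DD_subset I _) h2 h3
    obtain ⟨a1, a2, a3, a4, a5⟩ := hv
    refine ⟨ih hN h2' h3' a1, ?_, a3, ?_, ?_⟩
    · rw [hD, h3']; exact a2
    · rw [hD]; exact a4
    · rw [h v List.mem_cons_self]; exact a5

/-- first place where `v` leaves the span -/
theorem find_first (I : Finset E) (vs : List E) (v : E) (h0 : x v ∈ sp F x I)
    (h1 : x v ∉ sp F x (I \ DD en I vs)) :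
    ∃ pre w post, vs = pre ++ w :: post ∧ x v ∈ sp F x (I \ DD en I post) ∧
      x v ∉ sp F x (I \ DD en I (w :: post)) := by
  induction vs with
  | nil => simp [DD] at h1; exact absurd h0 h1
  | cons w vs ih =>
    by_cases h : x v ∈ sp F x (I \ DD en I vs)
    · exact ⟨[], w, vs, rfl, h, h1⟩
    · obtain ⟨pre, w', post, e1, e2, e3⟩ := ih h
      exact ⟨w :: pre, w', post, by rw [e1]; rfl, e2, e3⟩

theorem not_mem_NN_of_not_mem_DD (I : Finset E) (vs : List E) (d : E)
    (h : d ∉ DD en I vs) : ∀ u ∈ vs, d ∉ NN en I u := by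
  induction vs with
  | nil => simp
  | cons v vs ih =>
    rw [DD, Finset.mem_union, not_or] at h
    intro u hu
    rcases List.mem_cons.1 hu with rfl | hu
    · exact h.2
    · exact ih h.1 u hu

theorem swap (hne : ∀ e, (en e).Nonempty) (I : Finset E) (vs : List E) (v : E)
    (hI : Good F x en I) (hV : Valid F x en I vs) (h1 : x v ∉ sp F x (I \ DD en I vs))
    (h2 : ∀ u ∈ vs, Disjoint (en v) (en u)) (hN : NN en I v = ∅) :
    (∃ I', Good F x en I' ∧ I.card < I'.card) ∨ Improve F x en I vs := by
  have hno : ∀ d ∈ I, Disjoint (en v) (en d) := by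
    intro d hd
    by_contra h
    have : d ∈ NN en I v := Finset.mem_filter.2 ⟨hd, h⟩
    rw [hN] at this
    simp at this
  have hvI : v ∉ I := by
    intro h
    have h3 := hno v h
    rw [disjoint_self] at h3
    exact (hne v).ne_empty h3
  have conf : ∀ J : Finset E, J ⊆ I → ∀ a ∈ insert v J, ∀ b ∈ insert v J, a ≠ b →
      Disjoint (en a) (en b) := by
    intro J hJ a ha b hb hab
    rcases Finset.mem_insert.1 ha with ha | ha <;> rcases Finset.mem_insert.1 hb with hb | hb
    · exact absurd (ha.trans hb.symm) hab
    · rw [ha]; exact hno b (hJ hb)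
    · rw [hb]; exact (hno a (hJ ha)).symm
    · exact hI.2 a (hJ ha) b (hJ hb) hab
  by_cases h0 : x v ∈ sp F x I
  · right
    obtain ⟨pre, w, post, e1, e2, e3⟩ := find_first I vs v h0 h1
    have hA : I \ DD en I (w :: post) = (I \ DD en I post) \ NN en I w := by
      rw [DD]
      ext j
      simp only [Finset.mem_sdiff, Finset.mem_union]
      tauto
    rw [hA] at e3
    obtain ⟨d, hdA, hdN, h4, h5⟩ := exch_set hI.1 Finset.sdiff_subset e2 e3
    have hdI := (Finset.mem_sdiff.1 hdA).1
    have hdD := (Finset.mem_sdiff.1 hdA).2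
    set I' := insert v (I.erase d) with hI'
    have hvD : v ∉ DD en I post := fun h => hvI (DD_subset I _ h)
    have hsub : ∀ u ∈ vs, NN en I' u = (NN en I u).erase d := by
      intro u hu
      ext j
      simp only [NN, Finset.mem_filter, Finset.mem_erase, hI', Finset.mem_insert]
      constructor
      · rintro ⟨rfl | ⟨hj1, hj2⟩, hj3⟩
        · exact absurd (h2 u hu).symm hj3
        · exact ⟨hj1, hj2, hj3⟩
      · rintro ⟨hj1, hj2, hj3⟩
        exact ⟨Or.inr ⟨hj1, hj2⟩, hj3⟩
    refine ⟨pre, w, post, I', e1, ⟨?_, ?_⟩, ?_, ?_, ?_, ?_, ?_⟩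
    · exact (hI.1.mono (Finset.erase_subset _ _)).insert h4
    · exact conf _ (Finset.erase_subset _ _)
    · rw [hI', Finset.card_insert_of_notMem (fun h => hvI (Finset.mem_of_mem_erase h)),
        Finset.card_erase_add_one hdI]
    · intro j hj
      rw [hI']
      exact Finset.mem_insert_of_mem (Finset.mem_erase.2
        ⟨fun e => hdD (e ▸ hj), DD_subset I _ hj⟩)
    · have : I' \ DD en I post = insert v ((I \ DD en I post).erase d) := by
        ext j
        simp only [hI', Finset.mem_sdiff, Finset.mem_insert, Finset.mem_erase]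
        constructor
        · rintro ⟨rfl | ⟨hj1, hj2⟩, hj3⟩
          · exact Or.inl rfl
          · exact Or.inr ⟨hj1, hj2, hj3⟩
        · rintro (rfl | ⟨hj1, hj2, hj3⟩)
          · exact ⟨Or.inl rfl, hvD⟩
          · exact ⟨Or.inr ⟨hj1, hj2⟩, hj3⟩
      rw [this]
      exact sp_swap hdA e2 h5
    · intro u hu
      rw [hsub u (by rw [e1]; simp [hu])]
      exact Finset.erase_eq_of_notMem (not_mem_NN_of_not_mem_DD I post d hdD u hu)
    · rw [hsub w (by rw [e1]; simp)]
      exact Finset.card_erase_lt_of_mem hdN
  · left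
    refine ⟨insert v I, ⟨hI.1.insert h0, conf I (Finset.Subset.refl _)⟩, ?_⟩
    rw [Finset.card_insert_of_notMem hvI]
    omega

/-- the ends met so far -/
noncomputable def UU (en : E → Finset V) (I : Finset E) (vs : List E) : Finset V :=
  (DD en I vs).biUnion en ∪ vs.toFinset.biUnion en

theorem UU_card (h2 : ∀ e, (en e).card ≤ 2) (I : Finset E) (vs : List E)
    (hV : Valid F x en I vs) : (UU en I vs).card ≤ 3 * (DD en I vs).card := by
  induction vs with
  | nil => simp [UU, DD]
  | cons v vs ih =>
    obtain ⟨a1, a2, a3, a4, a5⟩ := hV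
    rw [DD_card a4]
    have h1 := ih a1
    have hsub : UU en I (v :: vs) ⊆ UU en I vs ∪ ((NN en I v).biUnion en ∪ en v) := by
      intro z hz
      unfold UU at hz ⊢
      simp only [DD, List.toFinset_cons, Finset.mem_union, Finset.mem_biUnion,
        Finset.mem_insert] at hz ⊢
      rcases hz with ⟨a, ha | ha, hz⟩ | ⟨a, rfl | ha, hz⟩
      · exact Or.inl (Or.inl ⟨a, ha, hz⟩)
      · exact Or.inr (Or.inl ⟨a, ha, hz⟩)
      · exact Or.inr (Or.inr hz)
      · exact Or.inl (Or.inr ⟨a, ha, hz⟩)
    have h3 : ((NN en I v).biUnion en ∪ en v).card ≤ 3 * (NN en I v).card := by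
      obtain ⟨d, hd⟩ := a5
      have hdd := (Finset.mem_filter.1 hd).2
      rw [Finset.not_disjoint_iff] at hdd
      obtain ⟨z, hz1, hz2⟩ := hdd
      have hle : ((NN en I v).biUnion en).card ≤ 2 * (NN en I v).card := by
        refine Finset.card_biUnion_le.trans ?_
        calc ∑ u ∈ NN en I v, (en u).card ≤ ∑ _u ∈ NN en I v, 2 := Finset.sum_le_sum fun u _ => h2 u
          _ = 2 * (NN en I v).card := by simp [mul_comm]
      have hun : (NN en I v).biUnion en ∪ en v ⊆ (NN en I v).biUnion en ∪ (en v).erase z := by
        intro y hy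
        rw [Finset.mem_union] at hy ⊢
        rcases hy with h | h
        · exact Or.inl h
        · by_cases hyz : y = z
          · left
            rw [hyz, Finset.mem_biUnion]
            exact ⟨d, hd, hz2⟩
          · exact Or.inr (Finset.mem_erase.2 ⟨hyz, h⟩)
      have h4 := (Finset.card_le_card hun).trans (Finset.card_union_le _ _)
      have h5 := Finset.card_erase_of_mem hz1
      have h6 := h2 v
      have h7 : 0 < (NN en I v).card := Finset.card_pos.2 ⟨d, hd⟩
      omega
    have h4 := (Finset.card_le_card hsub).trans (Finset.card_union_le _ _)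
    omega

/-- hypothesis of the theorem -/
def Cond (F : Type*) {W E V : Type*} [Field F] [AddCommGroup W] [Module F W] [Fintype E]
    (x : E → W) (en : E → Finset V) : Prop :=
  ∀ (R : Finset E) (n : ℕ), Idp F x R → R.card + n + 1 ≤ Module.finrank F (sp F x univ) →
    ∀ U : Finset V, U.card ≤ 3 * n → ∃ w, x w ∉ sp F x R ∧ Disjoint (en w) U

theorem main (hne : ∀ e, (en e).Nonempty) (h2 : ∀ e, (en e).card ≤ 2) (hC : Cond F x en)
    (c : ℕ) (hc : c + 1 ≤ Module.finrank F (sp F x univ)) :
    ∀ (r : ℕ) (I : Finset E) (vs : List E), Good F x en I → I.card = c → Valid F x en I vs →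
      I.card - (DD en I vs).card = r →
      (∃ I', Good F x en I' ∧ c < I'.card) ∨ Improve F x en I vs := by
  intro r
  induction r using Nat.strong_induction_on with
  | _ r ihr =>
  intro I vs hI hIc hv hr
  have hDle : (DD en I vs).card ≤ I.card := Finset.card_le_card (DD_subset I vs)
  have hRc : (I \ DD en I vs).card = I.card - (DD en I vs).card :=
    Finset.card_sdiff_of_subset (DD_subset I vs)
  obtain ⟨w, hw1, hw2⟩ := hC (I \ DD en I vs) (DD en I vs).card
    (hI.1.mono Finset.sdiff_subset) (by omega) (UU en I vs) (UU_card h2 I vs hv)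
  have hA : ∀ u ∈ vs, Disjoint (en w) (en u) := by
    intro u hu
    refine Finset.disjoint_of_subset_right ?_ hw2
    intro z hz
    unfold UU
    rw [Finset.mem_union, Finset.mem_biUnion, Finset.mem_biUnion]
    exact Or.inr ⟨u, by simpa using hu, hz⟩
  have hB : ∀ d ∈ DD en I vs, Disjoint (en w) (en d) := by
    intro d hd
    refine Finset.disjoint_of_subset_right ?_ hw2
    intro z hz
    unfold UU
    rw [Finset.mem_union, Finset.mem_biUnion]
    exact Or.inl ⟨d, hd, hz⟩
  -- inner induction
  have inner : ∀ (m : ℕ) (I' : Finset E), Good F x en I' → I'.card = c → Valid F x en I' vs →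
      DD en I vs ⊆ I' → sp F x (I' \ DD en I vs) = sp F x (I \ DD en I vs) →
      (∀ u ∈ vs, NN en I' u = NN en I u) →
      (NN en I' w).card = m → (∃ I'', Good F x en I'' ∧ c < I''.card) ∨ Improve F x en I' vs := by
    intro m
    induction m using Nat.strong_induction_on with
    | _ m ihm =>
    intro I' hI' hIc' hv' hsub' hsp' hN' hm
    have hD : DD en I' vs = DD en I vs := DD_congr hN'
    have hw1' : x w ∉ sp F x (I' \ DD en I' vs) := by rw [hD, hsp']; exact hw1
    rcases Finset.eq_empty_or_nonempty (NN en I' w) with hE | hE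
    · rcases swap hne I' vs w hI' hv' hw1' hA hE with ⟨I'', h3, h4⟩ | h3
      · left; exact ⟨I'', h3, by omega⟩
      · right; exact h3
    · have hB' : ∀ d ∈ DD en I' vs, Disjoint (en w) (en d) := by
        intro d hd
        rw [hD] at hd
        exact hB d hd
      have hval : Valid F x en I' (w :: vs) := ⟨hv', hw1', hA, hB', hE⟩
      have hcard := DD_card hB'
      have hle := Finset.card_le_card (DD_subset (en := en) I' (w :: vs))
      have hpos := hE.card_pos
      rcases ihr (I'.card - (DD en I' (w :: vs)).card)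
        (by rw [← hr, ← hD]; omega) I' (w :: vs) hI' hIc' hval rfl with h1 | h1
      · exact Or.inl h1
      · obtain ⟨pre, v, post, I'', e1, e2, e3, e4, e5, e6, e7⟩ := h1
        rcases pre with _ | ⟨p, pre⟩
        · -- improvement at the new element
          simp only [List.nil_append, List.cons.injEq] at e1
          obtain ⟨e1, rfl⟩ := e1
          subst e1
          have hN'' : ∀ u ∈ vs, NN en I'' u = NN en I u := by
            intro u hu
            rw [← hN' u hu]
            exact e6 u hu
          have hv'' : Valid F x en I'' vs := valid_congr e6 e4 e5 hv'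
          rcases ihm _ (hm ▸ e7) I'' e2 (e3.trans hIc') hv'' (by rw [← hD]; exact e4)
            (by rw [← hD, e5, hD, hsp']) hN'' rfl with h1 | h1
          · exact Or.inl h1
          · right
            obtain ⟨pre, v, post, J, g1, g2, g3, g4, g5, g6, g7⟩ := h1
            have hpost : ∀ u ∈ post, u ∈ vs := fun u hu => by rw [g1]; simp [hu]
            have hDp : DD en I'' post = DD en I' post :=
              DD_congr (fun u hu => e6 u (hpost u hu))
            have hDsub : DD en I' post ⊆ DD en I' vs := by
              rw [g1, ← List.singleton_append, ← List.append_assoc]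
              exact DD_mono_append I' _ post
            refine ⟨pre, v, post, J, g1, g2, g3.trans e3, ?_, ?_, ?_, ?_⟩
            · rw [← hDp]; exact g4
            · rw [hDp] at g5
              rw [g5]
              exact sp_congr hDsub (DD_subset I' _) e4 e5
            · intro u hu
              rw [g6 u hu]
              exact e6 u (hpost u hu)
            · rw [← e6 v (by rw [g1]; simp)]
              exact g7
        · right
          simp only [List.cons_append, List.cons.injEq] at e1
          exact ⟨pre, v, post, I'', e1.2, e2, e3, e4, e5, e6, e7⟩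
  exact inner _ I hI hIc hv (DD_subset I vs) rfl (fun _ _ => rfl) rfl

/-- **matroidal Haxell theorem** -/
theorem haxell (hne : ∀ e, (en e).Nonempty) (h2 : ∀ e, (en e).card ≤ 2) (hC : Cond F x en) :
    ∃ I : Finset E, Good F x en I ∧ sp F x I = sp F x univ := by
  obtain ⟨I, hI, hmax⟩ := Finset.exists_max_image (univ.filter (Good F x en)) (fun I => I.card)
    ⟨∅, by
      simp only [Finset.mem_filter, Finset.mem_univ, true_and]
      refine ⟨?_, by simp⟩
      unfold Idp
      rw [Finset.coe_empty]
      exact linearIndepOn_empty F x⟩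
  have hIG : Good F x en I := (Finset.mem_filter.1 hI).2
  have hmax' : ∀ I', Good F x en I' → I'.card ≤ I.card := fun I' h =>
    hmax I' (by simp only [Finset.mem_filter, Finset.mem_univ, true_and]; exact h)
  refine ⟨I, hIG, ?_⟩
  have hle : sp F x I ≤ sp F x univ := sp_mono (Finset.subset_univ I)
  have : FiniteDimensional F (sp F x univ) := by
    unfold sp
    exact FiniteDimensional.span_of_finite F ((Finset.finite_toSet _).image x)
  have hfr : Module.finrank F (sp F x I) = I.card := by
    have h := hIG.1
    unfold Idp LinearIndepOn at h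
    have h3 := finrank_span_eq_card h
    unfold sp
    rw [Set.image_eq_range]
    rw [h3]
    simp
  by_contra hneq
  have hlt : sp F x I < sp F x univ := lt_of_le_of_ne hle hneq
  have h3 := Submodule.finrank_lt_finrank_of_lt hlt
  rw [hfr] at h3
  rcases main hne h2 hC I.card h3 _ I [] hIG rfl trivial rfl with ⟨I', h4, h5⟩ | h4
  · have := hmax' I' h4
    omega
  · obtain ⟨pre, v, post, I', e, -⟩ := h4
    simp at e

end Pool.Agent.E8helper62.HL
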