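import Pool.Agent.E8helper62.HL.Trees

/-!
The connected even matching.
-/

set_option autoImplicit false
set_option linter.unusedSectionVars false

namespace Pool.Agent.E8helper62.HL

open Finset

attribute [local instance] Classical.propDecidable

variable {G : Type*} [Group G] [Fintype G] (H : Subgroup G) (A : Set G) (c : G → ℕ)

/-- the ends of an edge -/
def e1 (e : EE A) : G := e.2.1

def e2 (e : EE A) : G := e.2.1 * e.2.2

/-- `T` is a set of edges with distinct cells, even at every coset, and connecting the cosets -/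
theorem exists_edges (m : ℕ) (hm : ∀ v : G ⧸ H, ∀ a : ℕ,
      (univ.filter fun g : G => (g : G ⧸ H) = v ∧ c g = a).card ≤ m)
    (hmH : 18 * m ≤ Nat.card H) (hgen : ∀ M : Subgroup G, H ≤ M → A ⊆ M → M = ⊤) :
    ∃ T : Finset (EE A),
      (∀ e ∈ T, ((e1 A e : G) : G ⧸ H) ≠ ((e2 A e : G) : G ⧸ H)) ∧
      (∀ e ∈ T, ∀ e' ∈ T, e ≠ e' → Disjoint (ee H A c e) (ee H A c e')) ∧
      (∑ e ∈ T, dl H e.2.1 e.2.2 = 0) ∧
      (∀ Y : Set G, (∀ x ∈ Y, ∀ h ∈ H, x * h ∈ Y) → (∀ e ∈ T, e1 A e ∈ Y ↔ e2 A e ∈ Y) →
        Y.Nonempty → Y = Set.univ) := by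
  obtain ⟨I, hI, hsp⟩ := haxell (F := ZMod 2) (x := xx H A) (en := ee H A c)
    (ee_nonempty H A c) (ee_card H A c) (cond H A c m hm hmH hgen)
  set F0 := I.filter fun e => e.1 = false with hF0
  set F1 := I.filter fun e => e.1 = true with hF1
  have hne : ∀ e ∈ I, ((e1 A e : G) : G ⧸ H) ≠ ((e2 A e : G) : G ⧸ H) := by
    intro e he heq
    have h0 : dl H e.2.1 e.2.2 = 0 := by
      unfold dl de
      have : ((e.2.1 : G) : G ⧸ H) = ((e.2.1 * e.2.2 : G) : G ⧸ H) := heq
      rw [this]
      ext v
      simp only [Pi.add_apply, Pi.zero_apply]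
      exact CharTwo.add_self_eq_zero _
    have h1 : xx H A e = 0 := by
      unfold xx
      rw [h0]
      split <;> rfl
    have h2 : xx H A e ≠ 0 := LinearIndepOn.ne_zero hI.1 (Finset.mem_coe.2 he)
    exact h2 h1
  -- the second copy spans
  have hsnd : ∀ f : W1 H, ((0, f) : W1 H × W1 H) ∈ sp (ZMod 2) (xx H A) univ →
      ∃ J ⊆ F1, ∑ e ∈ J, dl H e.2.1 e.2.2 = f := by
    intro f hf
    rw [← hsp] at hf
    unfold sp at hf
    rw [Submodule.mem_span_image_finset_iff_exists_fun'] at hf
    obtain ⟨w, hw⟩ := hf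
    refine ⟨F1.filter fun e => w e ≠ 0, Finset.filter_subset _ _, ?_⟩
    have h1 := congrArg Prod.snd hw
    rw [Prod.snd_sum] at h1
    have h1' : ∑ e ∈ I, (w e • xx H A e).2 = f := h1
    rw [← h1', Finset.sum_filter, hF1, Finset.sum_filter]
    apply Finset.sum_congr rfl
    intro e _
    unfold xx
    by_cases he : e.1 = true
    · rw [if_pos he, if_pos he]
      by_cases hwe : w e = 0
      · simp [hwe]
      · have : w e = 1 := by
          have : ∀ z : ZMod 2, z ≠ 0 → z = 1 := by decide
          exact this _ hwe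
        simp [this]
    · rw [if_neg he, if_neg he]
      simp
  obtain ⟨J, hJ, hJs⟩ := hsnd (∑ e ∈ F0, dl H e.2.1 e.2.2) (by
    have : ((0, ∑ e ∈ F0, dl H e.2.1 e.2.2) : W1 H × W1 H) =
        ∑ e ∈ F0, xx H A (true, e.2) := by
      unfold xx
      simp only [if_true]
      refine Prod.ext ?_ ?_
      · rw [Prod.fst_sum]; simp
      · rw [Prod.snd_sum]
    rw [this]
    exact Submodule.sum_mem _ fun e _ => mem_sp (Finset.mem_univ _))
  have hdisj : Disjoint F0 J := by
    rw [Finset.disjoint_left]
    intro e he heJ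
    have h1 := (Finset.mem_filter.1 he).2
    have h2 := (Finset.mem_filter.1 (hJ heJ)).2
    rw [h1] at h2
    exact absurd h2 (by decide)
  have hTI : F0 ∪ J ⊆ I :=
    Finset.union_subset (Finset.filter_subset _ _) (hJ.trans (Finset.filter_subset _ _))
  refine ⟨F0 ∪ J, fun e he => hne e (hTI he), fun e he e' he' h => hI.2 e (hTI he) e' (hTI he') h,
    ?_, ?_⟩
  · rw [Finset.sum_union hdisj, hJs]
    ext v
    simp only [Pi.add_apply, Pi.zero_apply]
    exact CharTwo.add_self_eq_zero _
  · intro Y hYH hYT hYne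
    -- indicator functional
    let χ : (G ⧸ H) → ZMod 2 := fun v => if ∃ x ∈ Y, (x : G ⧸ H) = v then 1 else 0
    have hχ : ∀ g : G, χ (g : G ⧸ H) = if g ∈ Y then 1 else 0 := by
      intro g
      simp only [χ]
      by_cases hg : g ∈ Y
      · rw [if_pos hg, if_pos ⟨g, hg, rfl⟩]
      · rw [if_neg hg, if_neg]
        rintro ⟨x, hx, hxg⟩
        apply hg
        have h1 := QuotientGroup.eq.1 hxg
        have := hYH x hx _ h1
        simpa using this
    let φ : W1 H →ₗ[ZMod 2] ZMod 2 :=
      { toFun := fun f => ∑ v, χ v * f v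
        map_add' := by intro f g; simp [mul_add, Finset.sum_add_distrib]
        map_smul' := by
          intro a f
          simp only [Pi.smul_apply, smul_eq_mul, RingHom.id_apply, Finset.mul_sum]
          exact Finset.sum_congr rfl fun v _ => by ring }
    have hφ : ∀ g : G, φ (de H g) = if g ∈ Y then 1 else 0 := by
      intro g
      rw [← hχ]
      change ∑ v, χ v * (Pi.single (g : G ⧸ H) (1 : ZMod 2) : W1 H) v = _
      simp [Pi.single_apply]
    have hφe : ∀ e ∈ I, φ (xx H A e).1 = 0 := by
      intro e he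
      unfold xx
      by_cases hb : e.1 = true
      · rw [if_pos hb]; exact map_zero φ
      · rw [if_neg hb]
        have hb' : e.1 = false := by simpa using hb
        have heT : e ∈ F0 ∪ J := Finset.mem_union_left _ (Finset.mem_filter.2 ⟨he, hb'⟩)
        have h1 := hYT e heT
        change φ (dl H e.2.1 e.2.2) = 0
        unfold dl
        rw [map_add, hφ, hφ]
        by_cases h2 : e.2.1 ∈ Y
        · have h3 : e.2.1 * e.2.2 ∈ Y := h1.1 h2
          rw [if_pos h2, if_pos h3]; decide
        · have h3 : e.2.1 * e.2.2 ∉ Y := fun h => h2 (h1.2 h)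
          rw [if_neg h2, if_neg h3]; decide
    have hφ0 : ∀ w ∈ sp (ZMod 2) (xx H A) I, φ w.1 = 0 := by
      intro w hw
      have : sp (ZMod 2) (xx H A) I ≤
          LinearMap.ker (φ.comp (LinearMap.fst (ZMod 2) (W1 H) (W1 H))) := by
        apply sp_le
        intro e he
        rw [LinearMap.mem_ker]
        exact hφe e he
      exact this hw
    have hall : ∀ g, ∀ a ∈ A, (g ∈ Y ↔ g * a ∈ Y) := by
      intro g a ha
      have h1 := hφ0 (xx H A (false, g, ⟨a, ha⟩)) (by rw [hsp]; exact mem_sp (Finset.mem_univ _))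
      have h2 : φ (de H g) + φ (de H (g * a)) = 0 := by
        rw [← map_add]
        simpa [xx, dl] using h1
      rw [hφ, hφ] at h2
      by_cases h3 : g ∈ Y <;> by_cases h4 : g * a ∈ Y <;> simp [h3, h4] at h2 ⊢
    obtain ⟨y, hy⟩ := hYne
    let M : Subgroup G :=
      { carrier := {z | ∀ g, g ∈ Y ↔ g * z ∈ Y}
        mul_mem' := by
          intro a b ha hb g
          rw [ha g, hb (g * a), mul_assoc]
        one_mem' := by intro g; rw [mul_one]
        inv_mem' := by
          intro a ha g
          have := ha (g * a⁻¹)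
          rw [inv_mul_cancel_right] at this
          exact this.symm }
    have hHM : H ≤ M := by
      intro h hh g
      constructor
      · intro hg; exact hYH g hg h hh
      · intro hg
        have := hYH _ hg h⁻¹ (H.inv_mem hh)
        simpa using this
    have hAM : A ⊆ M := fun a ha g => hall g a ha
    have hM := hgen M hHM hAM
    ext g
    simp only [Set.mem_univ, iff_true]
    have h1 : y⁻¹ * g ∈ M := by rw [hM]; exact Subgroup.mem_top _
    have := (h1 y).1 hy
    simpa using this

end Pool.Agent.E8helper62.HL
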