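import Pool.Agent.E8helper62.HL.Cut

/-!
If a partition of `G` into `t ≥ 2` parts, each a union of left cosets of `H`, has the property
that every arrow `x → x s` (`s ∈ S`, `G = ⟨H, S⟩`) between different parts meets the set `U`, then
`t |H| < 3 |U|`.
-/

set_option autoImplicit false
set_option linter.unusedSectionVars false

namespace Pool.Agent.E8helper62.HL

open Finset

attribute [local instance] Classical.propDecidable

variable {G : Type*} [Group G] [Fintype G] {ι : Type*}

/-- the parts that are not unions of left cosets of `K` -/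
noncomputable def bad (P : G → ι) (K : Subgroup G) : Finset ι :=
  (univ.image P).filter fun a => ∃ x, P x = a ∧ ∃ k ∈ K, P (x * k) ≠ a

theorem mem_bad {P : G → ι} {K : Subgroup G} {a : ι} :
    a ∈ bad P K ↔ ∃ x, P x = a ∧ ∃ k ∈ K, P (x * k) ≠ a := by
  unfold bad
  rw [Finset.mem_filter]
  constructor
  · exact fun h => h.2
  · rintro ⟨x, hx, h⟩
    exact ⟨Finset.mem_image.2 ⟨x, Finset.mem_univ _, hx⟩, x, hx, h⟩

/-- elements of `U` in the parts of `B` -/
noncomputable def uu (P : G → ι) (U : Finset G) (B : Finset ι) : ℕ := (U.filter fun x => P x ∈ B).card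

theorem step_count (P : G → ι) {K K' : Subgroup G} (hKK : K ≤ K') (s : G) (hs : s ∈ K')
    (hgen : ∀ M : Subgroup G, K ≤ M → s ∈ M → K' ≤ M) (U : Finset G)
    (hU : ∀ x, P x ≠ P (x * s) → x ∈ U ∨ x * s ∈ U) :
    (bad P K' \ bad P K).card * Nat.card K ≤
      2 * uu P U (bad P K' \ bad P K) + uu P U (bad P K) := by
  set new := bad P K' \ bad P K with hnew
  -- each new part is left by many arrows
  have h1 : ∀ a ∈ new, Nat.card K ≤ (univ.filter fun z => P z = a ∧ P (z * s) ≠ a).card := by
    intro a ha
    rw [hnew, Finset.mem_sdiff, mem_bad, mem_bad] at ha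
    obtain ⟨⟨x, hx, k, hk, hxk⟩, hno⟩ := ha
    push Not at hno
    have hc := cut hKK hs hgen (univ.filter fun y => y ∈ K' ∧ P (x * y) = a)
      (by intro y hy; exact (Finset.mem_filter.1 hy).2.1)
      ⟨1, by rw [Finset.mem_filter]; exact ⟨Finset.mem_univ _, K'.one_mem, by rw [mul_one]; exact hx⟩⟩
      ⟨k, hk, by rw [Finset.mem_filter]; exact fun h => hxk h.2.2⟩
      (by
        intro y hy l hl
        rw [Finset.mem_filter] at hy ⊢
        refine ⟨Finset.mem_univ _, K'.mul_mem hy.2.1 (hKK hl), ?_⟩
        rw [← mul_assoc]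
        exact hno _ hy.2.2 l hl)
    refine hc.trans ?_
    unfold dd
    refine Finset.card_le_card_of_injOn (fun y => x * y) ?_ ?_
    · intro y hy
      rw [Finset.mem_coe, Finset.mem_filter, Finset.mem_filter] at hy
      obtain ⟨⟨_, hy1, hy2⟩, hy3⟩ := hy
      rw [Finset.mem_coe, Finset.mem_filter]
      refine ⟨Finset.mem_univ _, hy2, fun h => hy3 ?_⟩
      rw [Finset.mem_filter]
      exact ⟨Finset.mem_univ _, K'.mul_mem hy1 hs, by rw [← mul_assoc]; exact h⟩
    · intro y _ y' _ h
      simpa using h
  have h2 : new.card * Nat.card K ≤ (univ.filter fun z => P z ∈ new ∧ P (z * s) ≠ P z).card := by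
    have e : (univ.filter fun z => P z ∈ new ∧ P (z * s) ≠ P z) =
        new.biUnion fun a => univ.filter fun z => P z = a ∧ P (z * s) ≠ a := by
      ext z
      simp only [Finset.mem_filter, Finset.mem_univ, true_and, Finset.mem_biUnion]
      constructor
      · rintro ⟨ha, hb⟩; exact ⟨P z, ha, rfl, hb⟩
      · rintro ⟨a, ha, rfl, hb⟩; exact ⟨ha, hb⟩
    rw [e, Finset.card_biUnion]
    · rw [← smul_eq_mul]
      exact Finset.card_nsmul_le_sum _ _ _ h1
    · intro a _ b _ hab
      rw [Function.onFun, Finset.disjoint_left]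
      intro z hz hz'
      rw [Finset.mem_filter] at hz hz'
      exact hab (hz.2.1.symm.trans hz'.2.1)
  refine h2.trans ?_
  -- every such arrow meets `U`
  have h3 : (univ.filter fun z => P z ∈ new ∧ P (z * s) ≠ P z) ⊆
      (U.filter fun x => P x ∈ new) ∪
      ((U.filter fun x => P x ∈ new ∪ bad P K).map (Equiv.mulRight s⁻¹).toEmbedding) := by
    intro z hz
    rw [Finset.mem_filter] at hz
    obtain ⟨_, hz1, hz2⟩ := hz
    rw [Finset.mem_union]
    rcases hU z (Ne.symm hz2) with h | h
    · left
      rw [Finset.mem_filter]; exact ⟨h, hz1⟩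
    · right
      rw [Finset.mem_map]
      refine ⟨z * s, ?_, by simp⟩
      rw [Finset.mem_filter]
      refine ⟨h, ?_⟩
      have hb : P (z * s) ∈ bad P K' := by
        rw [mem_bad]
        exact ⟨z * s, rfl, s⁻¹, K'.inv_mem hs, by rw [mul_inv_cancel_right]; exact Ne.symm hz2⟩
      by_cases hbK : P (z * s) ∈ bad P K
      · exact Finset.mem_union_right _ hbK
      · exact Finset.mem_union_left _ (by rw [hnew, Finset.mem_sdiff]; exact ⟨hb, hbK⟩)
  refine (Finset.card_le_card h3).trans ((Finset.card_union_le _ _).trans ?_)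
  rw [Finset.card_map]
  have h4 : (U.filter fun x => P x ∈ new ∪ bad P K).card ≤
      (U.filter fun x => P x ∈ new).card + (U.filter fun x => P x ∈ bad P K).card := by
    refine (Finset.card_le_card ?_).trans (Finset.card_union_le _ _)
    intro x hx
    rw [Finset.mem_filter, Finset.mem_union] at hx
    rw [Finset.mem_union, Finset.mem_filter, Finset.mem_filter]
    tauto
  unfold uu
  omega

theorem parts (P : G → ι) (H : Subgroup G) (S : Set G)
    (hgen : ∀ M : Subgroup G, H ≤ M → S ⊆ M → M = ⊤)
    (hP : ∀ x, ∀ h ∈ H, P (x * h) = P x) (U : Finset G)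
    (hU : ∀ x, ∀ s ∈ S, P x ≠ P (x * s) → x ∈ U ∨ x * s ∈ U)
    (ht : 2 ≤ (univ.image P).card) :
    Nat.card H * (univ.image P).card < 3 * U.card := by
  have hfin : ∀ K : Subgroup G, 0 < Nat.card K := fun K => Nat.card_pos
  let Inv : Subgroup G → Prop := fun K => H ≤ K ∧
    Nat.card H * Nat.card K * (bad P K).card + 2 * Nat.card H * uu P U (bad P K) ≤
      3 * Nat.card K * uu P U (bad P K)
  have h0 : Inv H := by
    refine ⟨le_rfl, ?_⟩
    have : bad P H = ∅ := by
      rw [Finset.eq_empty_iff_forall_notMem]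
      intro a ha
      rw [mem_bad] at ha
      obtain ⟨x, hx, k, hk, h⟩ := ha
      exact h ((hP x k hk).trans hx)
    rw [this]
    simp [uu]
  obtain ⟨K, hK, hmax⟩ := Finset.exists_max_image (univ.filter Inv) (fun K => Nat.card K)
    ⟨H, by simp only [Finset.mem_filter, Finset.mem_univ, true_and]; exact h0⟩
  have hKI : Inv K := (Finset.mem_filter.1 hK).2
  have hmax' : ∀ K', Inv K' → Nat.card K' ≤ Nat.card K := fun K' h =>
    hmax K' (by simp only [Finset.mem_filter, Finset.mem_univ, true_and]; exact h)
  obtain ⟨hHK, hinv⟩ := hKI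
  have hKtop : K = ⊤ := by
    apply hgen K hHK
    by_contra hno
    rw [Set.not_subset] at hno
    obtain ⟨s, hsS, hsK⟩ := hno
    have hsK' : s ∉ K := hsK
    set K' := K ⊔ Subgroup.zpowers s with hK'
    have hKK : K ≤ K' := le_sup_left
    have hsK2 : s ∈ K' := (le_sup_right : Subgroup.zpowers s ≤ K') (Subgroup.mem_zpowers s)
    have hlt : Nat.card K < Nat.card K' := by
      have h1 : (K : Set G).ncard < (K' : Set G).ncard := by
        apply Set.ncard_lt_ncard _ (Set.toFinite _)
        exact ⟨hKK, fun h => hsK' (h hsK2)⟩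
      exact h1
    obtain ⟨c, hc⟩ : Nat.card K ∣ Nat.card K' := Subgroup.card_dvd_of_le hKK
    have hc2 : 2 ≤ c := by
      by_contra h
      have : c ≤ 1 := by omega
      interval_cases c <;> omega
    have hcount := step_count P hKK s hsK2 (fun M hM hsM => by
      rw [hK', sup_le_iff, Subgroup.zpowers_le]; exact ⟨hM, hsM⟩) U (fun x h => hU x s hsS h)
    have hbsub : bad P K ⊆ bad P K' := by
      intro a ha
      rw [mem_bad] at ha ⊢
      obtain ⟨x, hx, k, hk, h⟩ := ha
      exact ⟨x, hx, k, hKK hk, h⟩
    have hbc : (bad P K').card = (bad P K).card + (bad P K' \ bad P K).card := by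
      rw [Finset.card_sdiff_of_subset hbsub]
      have := Finset.card_le_card hbsub
      omega
    have hbu : uu P U (bad P K') = uu P U (bad P K) + uu P U (bad P K' \ bad P K) := by
      unfold uu
      rw [← Finset.card_union_of_disjoint]
      · congr 1
        ext x
        simp only [Finset.mem_filter, Finset.mem_union, Finset.mem_sdiff]
        have := @hbsub (P x)
        tauto
      · rw [Finset.disjoint_left]
        intro x hx hx'
        rw [Finset.mem_filter] at hx hx'
        exact (Finset.mem_sdiff.1 hx'.2).2 hx.2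
    have hnew : Inv K' := by
      refine ⟨hHK.trans hKK, ?_⟩
      rw [hbc, hbu, hc]
      have hHKc : Nat.card H ≤ Nat.card K := Nat.le_of_dvd (hfin K) (Subgroup.card_dvd_of_le hHK)
      set h := Nat.card H
      set k := Nat.card K
      set t := (bad P K).card
      set u := uu P U (bad P K)
      set dt := (bad P K' \ bad P K).card
      set du := uu P U (bad P K' \ bad P K)
      have a1 : c * (h * k * t + 2 * h * u) ≤ c * (3 * k * u) := Nat.mul_le_mul_left _ hinv
      have a2 : h * c * (dt * k) ≤ h * c * (2 * du + u) := Nat.mul_le_mul_left _ hcount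
      have a3 : 2 * (h * u) ≤ c * (h * u) := Nat.mul_le_mul_right _ hc2
      have a4 : 2 * (h * du) ≤ c * (h * du) := Nat.mul_le_mul_right _ hc2
      have a5 : c * du * h ≤ c * du * k := Nat.mul_le_mul_left _ hHKc
      nlinarith
    have := hmax' K' hnew
    omega
  subst hKtop
  have hbad : bad P (⊤ : Subgroup G) = univ.image P := by
    unfold bad
    rw [Finset.filter_true_of_mem]
    intro a ha
    obtain ⟨x, _, hx⟩ := Finset.mem_image.1 ha
    have : ∃ b ∈ univ.image P, b ≠ a := by
      by_contra hno
      push Not at hno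
      have : (univ.image P).card ≤ 1 := Finset.card_le_one.2 (fun b hb b' hb' =>
        (hno b hb).trans (hno b' hb').symm)
      omega
    obtain ⟨b, hb, hne⟩ := this
    obtain ⟨y, _, hy⟩ := Finset.mem_image.1 hb
    exact ⟨x, hx, x⁻¹ * y, Subgroup.mem_top _, by rw [mul_inv_cancel_left, hy]; exact hne⟩
  have hu : uu P U (bad P (⊤ : Subgroup G)) = U.card := by
    unfold uu
    rw [hbad, Finset.filter_true_of_mem]
    intro x _
    exact Finset.mem_image_of_mem _ (Finset.mem_univ _)
  rw [hu, hbad] at hinv
  have hG := hfin (⊤ : Subgroup G)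
  have hH := hfin H
  set h := Nat.card H
  set g := Nat.card (⊤ : Subgroup G)
  set t := (univ.image P).card
  have hUpos : 0 < U.card := by
    by_contra hz
    have hz' : U.card = 0 := by omega
    rw [hz'] at hinv
    have : 0 < h * g * t := by positivity
    omega
  have b1 : h * g * t < 3 * g * U.card := by
    have : 0 < 2 * h * U.card := by positivity
    omega
  by_contra hcon
  push Not at hcon
  have : g * (3 * U.card) ≤ g * (h * t) := Nat.mul_le_mul_left _ hcon
  nlinarith

end Pool.Agent.E8helper62.HL
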