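import Pool.Agent.E8helper62.HL.Sigma

/-!
Reversing segments of a closed tour, in order to make all steps inside cosets good.
-/

set_option autoImplicit false
set_option linter.unusedSectionVars false

namespace Pool.Agent.E8helper62.HL

open Finset

attribute [local instance] Classical.propDecidable

variable {G : Type*} [Group G] [Fintype G] (H : Subgroup G) (A : Set G)

/-- inside a coset, or along the matching -/
def Rel (io : G → G) (x y : G) : Prop := (x : G ⧸ H) = (y : G ⧸ H) ∨ (y = io x ∧ io x ≠ x)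

/-- a step inside a coset which is not in `A` -/
def Bad (x y : G) : Prop := (x : G ⧸ H) = (y : G ⧸ H) ∧ x⁻¹ * y ∉ A

theorem Rel.symm {io : G → G} (hio : ∀ x, io (io x) = x) {x y : G} (h : Rel H io x y) :
    Rel H io y x := by
  rcases h with h | ⟨rfl, h⟩
  · exact Or.inl h.symm
  · right
    rw [hio]
    exact ⟨rfl, h.symm⟩

theorem Bad.symm (hA : ∀ x ∈ A, x⁻¹ ∈ A) {x y : G} (h : Bad H A x y) : Bad H A y x := by
  refine ⟨h.1.symm, fun h' => h.2 ?_⟩
  have := hA _ h'
  rwa [mul_inv_rev, inv_inv] at this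

/-- a closed sequence through all elements of `G`: steps inside a coset or along the matching -/
structure Tour (io : G → G) (f : ℕ → G) : Prop where
  inj : ∀ i < Nat.card G, ∀ j < Nat.card G, f i = f j → i = j
  close : f (Nat.card G) = f 0
  rel : ∀ j < Nat.card G, Rel H io (f j) (f (j + 1))

theorem exists_tour {N : ℕ} {io : G → G} (hE : EvenMatching H A N io) :
    ∃ f : ℕ → G, Tour H io f := by
  obtain ⟨σ, h1, h2⟩ := exists_cycle H A hE
  have hcyc : σ.IsCycleOn ((univ : Finset G) : Set G) := by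
    rw [Finset.coe_univ]
    exact ⟨Set.bijOn_univ.2 σ.bijective, fun x _ y _ => (h1 x).symm.trans (h1 y)⟩
  have hcard : (univ : Finset G).card = Nat.card G := by
    rw [Nat.card_eq_fintype_card]; rfl
  refine ⟨fun j => (σ ^ j) 1, ⟨?_, ?_, ?_⟩⟩
  · intro i hi j hj hij
    have hij' : (σ ^ i) 1 = (σ ^ j) 1 := hij
    rw [hcyc.pow_apply_eq_pow_apply (Finset.mem_univ _), hcard] at hij'
    exact Nat.ModEq.eq_of_lt_of_lt hij' hi hj
  · rw [hcyc.pow_apply_eq (Finset.mem_univ _) |>.2 (by rw [hcard]), pow_zero, Equiv.Perm.one_apply]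
  · intro j _
    rw [pow_succ', Equiv.Perm.mul_apply]
    rcases h2 ((σ ^ j) 1) with h | h
    · exact Or.inl h.symm
    · exact Or.inr h

/-- reverse the segment `p + 1, …, q` -/
def flip (f : ℕ → G) (p q : ℕ) : ℕ → G :=
  fun j => if p < j ∧ j ≤ q then f (p + q + 1 - j) else f j

/-- the number of bad steps -/
noncomputable def cost (f : ℕ → G) : ℕ :=
  ((range (Nat.card G)).filter fun j => Bad H A (f j) (f (j + 1))).card

theorem flip_step (f : ℕ → G) {p q : ℕ} (hpq : p < q) (S : G → G → Prop)
    (hS : ∀ x y, S x y → S y x) (h1 : S (f p) (f q)) (h2 : S (f (p + 1)) (f (q + 1))) (j : ℕ) :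
    (∀ i, (if p < j ∧ j < q then p + q - j else j) = i → i ≠ p → i ≠ q → S (f i) (f (i + 1))) →
    S (flip f p q j) (flip f p q (j + 1)) := by
  intro h
  by_cases hjp : j = p
  · subst hjp
    have e1 : flip f j q j = f j := by unfold flip; rw [if_neg (by omega)]
    have e2 : flip f j q (j + 1) = f q := by
      unfold flip; rw [if_pos (by omega)]; congr 1; omega
    rw [e1, e2]; exact h1
  by_cases hjq : j = q
  · subst hjq
    have e1 : flip f p j j = f (p + 1) := by
      unfold flip; rw [if_pos (by omega)]; congr 1; omega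
    have e2 : flip f p j (j + 1) = f (j + 1) := by unfold flip; rw [if_neg (by omega)]
    rw [e1, e2]; exact h2
  by_cases hj : p < j ∧ j < q
  · have e1 : flip f p q j = f (p + q - j + 1) := by
      unfold flip; rw [if_pos (by omega)]; congr 1; omega
    have e2 : flip f p q (j + 1) = f (p + q - j) := by
      unfold flip; rw [if_pos (by omega)]; congr 1; omega
    rw [e1, e2]
    exact hS _ _ (h _ (if_pos hj) (by omega) (by omega))
  · have e1 : flip f p q j = f j := by unfold flip; rw [if_neg (by omega)]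
    have e2 : flip f p q (j + 1) = f (j + 1) := by unfold flip; rw [if_neg (by omega)]
    rw [e1, e2]
    exact h _ (if_neg hj) hjp hjq

theorem flip_tour {io : G → G} (hio : ∀ x, io (io x) = x) {f : ℕ → G} (hf : Tour H io f)
    {p q : ℕ} (hpq : p < q) (hq : q < Nat.card G)
    (h1 : (f p : G ⧸ H) = (f q : G ⧸ H)) (h2 : (f (p + 1) : G ⧸ H) = (f (q + 1) : G ⧸ H)) :
    Tour H io (flip f p q) := by
  refine ⟨?_, ?_, ?_⟩
  · intro i hi j hj hij
    unfold flip at hij
    split_ifs at hij with ha hb hb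
    · have := hf.inj _ (by omega) _ (by omega) hij
      omega
    · have := hf.inj _ (by omega) _ (by omega) hij
      omega
    · have := hf.inj _ (by omega) _ (by omega) hij
      omega
    · exact hf.inj _ hi _ hj hij
  · have e1 : flip f p q (Nat.card G) = f (Nat.card G) := by unfold flip; rw [if_neg (by omega)]
    have e2 : flip f p q 0 = f 0 := by unfold flip; rw [if_neg (by omega)]
    rw [e1, e2]; exact hf.close
  · intro j hj
    refine flip_step f hpq (Rel H io) (fun x y h => Rel.symm H hio h) (Or.inl h1) (Or.inl h2) j ?_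
    intro i hi _ _
    refine hf.rel i ?_
    split_ifs at hi <;> omega

theorem flip_cost (hA : ∀ x ∈ A, x⁻¹ ∈ A) {f : ℕ → G} {p q k : ℕ} (hpq : p < q)
    (hq : q < Nat.card G) (h1 : ¬ Bad H A (f p) (f q)) (h2 : ¬ Bad H A (f (p + 1)) (f (q + 1)))
    (hk : k = p ∨ k = q) (hbad : Bad H A (f k) (f (k + 1))) :
    cost H A (flip f p q) < cost H A f := by
  unfold cost
  have hkm : k ∈ (range (Nat.card G)).filter fun j => Bad H A (f j) (f (j + 1)) := by
    rw [Finset.mem_filter, Finset.mem_range]
    exact ⟨by omega, hbad⟩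
  refine lt_of_le_of_lt ?_ (Finset.card_erase_lt_of_mem hkm)
  refine Finset.card_le_card_of_injOn (fun j => if p < j ∧ j < q then p + q - j else j) ?_ ?_
  · intro j hj
    rw [Finset.mem_coe, Finset.mem_filter, Finset.mem_range] at hj
    obtain ⟨hj, hjb⟩ := hj
    have key := mt (flip_step f hpq (fun x y => ¬ Bad H A x y)
      (fun x y h h' => h (h'.symm H A hA)) h1 h2 j) (not_not.2 hjb)
    push Not at key
    obtain ⟨i, hi, hip, hiq, hib⟩ := key
    rw [Finset.mem_coe, Finset.mem_erase, Finset.mem_filter, Finset.mem_range]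
    have hi' : (fun j => if p < j ∧ j < q then p + q - j else j) j = i := hi
    rw [hi']
    refine ⟨?_, ?_, hib⟩
    · rcases hk with rfl | rfl <;> assumption
    · split_ifs at hi <;> omega
  · intro i _ j _ hij
    simp only at hij
    split_ifs at hij <;> omega

/-- the number of elements of a coset -/
theorem card_coset (v : G) : (univ.filter fun x : G => (x : G ⧸ H) = (v : G ⧸ H)).card = Nat.card H := by
  rw [Nat.card_eq_fintype_card, ← Finset.card_univ (α := H)]
  symm
  refine Finset.card_bij (fun (h : H) _ => v * (h : G)) ?_ ?_ ?_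
  · intro h _
    rw [Finset.mem_filter]
    exact ⟨Finset.mem_univ _, QuotientGroup.mk_mul_of_mem v h.2⟩
  · intro a _ b _ h
    exact Subtype.ext (mul_left_cancel h)
  · intro x hx
    rw [Finset.mem_filter] at hx
    refine ⟨⟨v⁻¹ * x, QuotientGroup.eq.1 hx.2.symm⟩, Finset.mem_univ _, ?_⟩
    simp

/-- the number of neighbours -/
theorem card_nbr (v : G) : (univ.filter fun x : G => (v⁻¹ * x ∈ A ∧ v⁻¹ * x ∈ H) ∧ x ≠ v).card =
    (univ.filter fun x : G => (x ∈ A ∧ x ∈ H) ∧ x ≠ 1).card := by
  symm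
  refine Finset.card_bij (fun x _ => v * x) ?_ ?_ ?_
  · intro x hx
    rw [Finset.mem_filter] at hx ⊢
    rw [inv_mul_cancel_left]
    exact ⟨Finset.mem_univ _, hx.2.1, fun h => hx.2.2 (mul_eq_left.1 h)⟩
  · intro a _ b _ h
    exact mul_left_cancel h
  · intro x hx
    rw [Finset.mem_filter] at hx
    refine ⟨v⁻¹ * x, ?_, by group⟩
    rw [Finset.mem_filter]
    refine ⟨Finset.mem_univ _, hx.2.1, fun h => hx.2.2 ?_⟩
    rw [inv_mul_eq_one] at h
    exact h.symm

/-- a tour with a bad step can be improved -/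
theorem improve (hA : ∀ x ∈ A, x⁻¹ ∈ A) {N : ℕ} {io : G → G} (hE : EvenMatching H A N io)
    (hB : Nat.card H + N / 2 ≤ 2 * (univ.filter fun x : G => (x ∈ A ∧ x ∈ H) ∧ x ≠ 1).card)
    (hn : 3 ≤ Nat.card G)
    {f : ℕ → G} (hf : Tour H io f) {k : ℕ} (hk : k < Nat.card G)
    (hbad : Bad H A (f k) (f (k + 1))) :
    ∃ f' : ℕ → G, Tour H io f' ∧ cost H A f' < cost H A f := by
  set n := Nat.card G with hndef
  -- shifted injectivity
  have inj1 : ∀ i < n, ∀ j < n, f (i + 1) = f (j + 1) → i = j := by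
    intro i hi j hj h
    rcases Nat.lt_or_ge (i + 1) n with h1 | h1 <;> rcases Nat.lt_or_ge (j + 1) n with h2 | h2
    · have := hf.inj _ h1 _ h2 h
      omega
    · have e : j + 1 = n := by omega
      rw [e, hf.close] at h
      have := hf.inj _ h1 _ (by omega) h
      omega
    · have e : i + 1 = n := by omega
      rw [e, hf.close] at h
      have := hf.inj _ (by omega) _ h2 h
      omega
    · omega
  -- surjectivity
  have hcardR : (range n).card = (univ : Finset G).card := by
    rw [Finset.card_range, Finset.card_univ, hndef, Nat.card_eq_fintype_card]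
  have cnt0 : ∀ P : G → Prop, ((range n).filter fun j => P (f j)).card = (univ.filter P).card := by
    intro P
    have himg : (range n).image f = univ := by
      apply Finset.eq_univ_of_card
      rw [Finset.card_image_of_injOn, hcardR, Finset.card_univ]
      intro i hi j hj h
      exact hf.inj i (Finset.mem_range.1 hi) j (Finset.mem_range.1 hj) h
    rw [← himg, Finset.filter_image, Finset.card_image_of_injOn]
    intro i hi j hj h
    rw [Finset.mem_coe, Finset.mem_filter, Finset.mem_range] at hi hj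
    exact hf.inj i hi.1 j hj.1 h
  have cnt1 : ∀ P : G → Prop, ((range n).filter fun j => P (f (j + 1))).card =
      (univ.filter P).card := by
    intro P
    have himg : (range n).image (fun j => f (j + 1)) = univ := by
      apply Finset.eq_univ_of_card
      rw [Finset.card_image_of_injOn, hcardR, Finset.card_univ]
      intro i hi j hj h
      exact inj1 i (Finset.mem_range.1 hi) j (Finset.mem_range.1 hj) h
    rw [← himg, Finset.filter_image, Finset.card_image_of_injOn]
    intro i hi j hj h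
    rw [Finset.mem_coe, Finset.mem_filter, Finset.mem_range] at hi hj
    exact inj1 i hi.1 j hj.1 h
  -- the coset
  obtain ⟨C, hC⟩ : ∃ C : G → Prop, ∀ x, C x ↔ (x : G ⧸ H) = (f k : G ⧸ H) :=
    ⟨_, fun x => Iff.rfl⟩
  have huC : C (f k) := (hC _).2 rfl
  have hvC : C (f (k + 1)) := (hC _).2 hbad.1.symm
  let I := (range n).filter fun j => C (f j)
  let J := (range n).filter fun j => C (f (j + 1))
  let P := (range n).filter fun j => C (f j) ∧ C (f (j + 1))
  let Ou := (range n).filter fun j => C (f j) ∧ ¬ C (f (j + 1))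
  let In := (range n).filter fun j => ¬ C (f j) ∧ C (f (j + 1))
  have hCc : (univ.filter C).card = Nat.card H := by
    rw [← card_coset H (f k)]
    congr 1
    exact Finset.filter_congr fun x _ => hC x
  have hI : I.card = Nat.card H := (cnt0 C).trans hCc
  have hJ : J.card = Nat.card H := (cnt1 C).trans hCc
  have hPO : P.card + Ou.card = I.card := by
    have e1 : P = I.filter fun j => C (f (j + 1)) := by
      simp only [P, I, Finset.filter_filter]
    have e2 : Ou = I.filter fun j => ¬ C (f (j + 1)) := by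
      simp only [Ou, I, Finset.filter_filter]
    rw [e1, e2]
    exact Finset.card_filter_add_card_filter_not _
  have hPI : P.card + In.card = J.card := by
    have e1 : P = J.filter fun j => C (f j) := by
      simp only [P, J, Finset.filter_filter, and_comm]
    have e2 : In = J.filter fun j => ¬ C (f j) := by
      simp only [In, J, Finset.filter_filter, and_comm]
    rw [e1, e2]
    exact Finset.card_filter_add_card_filter_not _
  have houio : ∀ j ∈ Ou, f (j + 1) = io (f j) ∧ io (f j) ≠ f j := by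
    intro j hj
    obtain ⟨h1, h2, h3⟩ := Finset.mem_filter.1 hj
    rcases hf.rel j (Finset.mem_range.1 h1) with h | h
    · exact absurd ((hC _).2 (h.symm.trans ((hC _).1 h2))) h3
    · exact h
  have hinio : ∀ j ∈ In, f (j + 1) = io (f j) ∧ io (f j) ≠ f j := by
    intro j hj
    obtain ⟨h1, h2, h3⟩ := Finset.mem_filter.1 hj
    rcases hf.rel j (Finset.mem_range.1 h1) with h | h
    · exact absurd ((hC _).2 (h.trans ((hC _).1 h3))) h2
    · exact h
  have hOI : Ou.card + In.card ≤ N := by
    refine le_trans ?_ (hE.few (f k : G ⧸ H))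
    have hO' : Ou.card = (Ou.image f).card := by
      rw [Finset.card_image_of_injOn]
      intro i hi j hj h
      exact hf.inj i (Finset.mem_range.1 (Finset.mem_filter.1 hi).1) j
        (Finset.mem_range.1 (Finset.mem_filter.1 hj).1) h
    have hI' : In.card = (In.image (fun j => f (j + 1))).card := by
      rw [Finset.card_image_of_injOn]
      intro i hi j hj h
      exact inj1 i (Finset.mem_range.1 (Finset.mem_filter.1 hi).1) j
        (Finset.mem_range.1 (Finset.mem_filter.1 hj).1) h
    rw [hO', hI', ← Finset.card_union_of_disjoint]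
    · apply Finset.card_le_card
      intro x hx
      rw [Finset.mem_union, Finset.mem_image, Finset.mem_image] at hx
      rw [Finset.mem_filter]
      refine ⟨Finset.mem_univ _, ?_⟩
      rcases hx with ⟨j, hj, rfl⟩ | ⟨j, hj, rfl⟩
      · exact ⟨(hC _).1 (Finset.mem_filter.1 hj).2.1, (houio j hj).2⟩
      · refine ⟨(hC _).1 (Finset.mem_filter.1 hj).2.2, ?_⟩
        rw [(hinio j hj).1, hE.inv]
        exact (hinio j hj).2.symm
    · rw [Finset.disjoint_left]
      intro x hx hx'
      obtain ⟨j, hj, rfl⟩ := Finset.mem_image.1 hx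
      obtain ⟨j', hj', h⟩ := Finset.mem_image.1 hx'
      have h1 : f (j' + 1) = f j := h
      have h2 : f (j + 1) = f j' := by
        rw [(houio j hj).1, ← h1, (hinio j' hj').1, hE.inv]
      have hjn := Finset.mem_range.1 (Finset.mem_filter.1 hj).1
      have hjn' := Finset.mem_range.1 (Finset.mem_filter.1 hj').1
      rcases Nat.lt_or_ge (j + 1) n with h3 | h3 <;> rcases Nat.lt_or_ge (j' + 1) n with h4 | h4
      · have a1 := hf.inj _ h4 _ hjn h1
        have a2 := hf.inj _ h3 _ hjn' h2
        omega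
      · have e : j' + 1 = n := by omega
        rw [e, hf.close] at h1
        have a1 := hf.inj _ (by omega) _ hjn h1
        have a2 := hf.inj _ h3 _ hjn' h2
        omega
      · have e : j + 1 = n := by omega
        rw [e, hf.close] at h2
        have a1 := hf.inj _ h4 _ hjn h1
        have a2 := hf.inj _ (by omega) _ hjn' h2
        omega
      · have e : j' + 1 = n := by omega
        rw [e, hf.close] at h1
        have a1 := hf.inj _ (by omega) _ hjn h1
        omega
  -- the two neighbourhoods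
  obtain ⟨Q2, hQ2⟩ : ∃ Q : G → Prop, ∀ x, Q x ↔
      (((f k)⁻¹ * x ∈ A ∧ (f k)⁻¹ * x ∈ H) ∧ x ≠ f k) := ⟨_, fun x => Iff.rfl⟩
  obtain ⟨Q1, hQ1⟩ : ∃ Q : G → Prop, ∀ x, Q x ↔
      (((f (k + 1))⁻¹ * x ∈ A ∧ (f (k + 1))⁻¹ * x ∈ H) ∧ x ≠ f (k + 1)) :=
    ⟨_, fun x => Iff.rfl⟩
  have hQ2C : ∀ x, Q2 x → C x := by
    intro x hx
    exact (hC _).2 (QuotientGroup.eq.2 ((hQ2 x).1 hx).1.2).symm
  have hQ1C : ∀ x, Q1 x → C x := by
    intro x hx
    exact (hC _).2 ((QuotientGroup.eq.2 ((hQ1 x).1 hx).1.2).symm.trans ((hC _).1 hvC))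
  set b := (univ.filter fun x : G => (x ∈ A ∧ x ∈ H) ∧ x ≠ 1).card with hb
  have hc2 : ((range n).filter fun j => Q2 (f j)).card = b := by
    rw [cnt0 Q2, hb, ← card_nbr H A (f k)]
    congr 1
    exact Finset.filter_congr fun x _ => hQ2 x
  have hc1 : ((range n).filter fun j => Q1 (f (j + 1))).card = b := by
    rw [cnt1 Q1, hb, ← card_nbr H A (f (k + 1))]
    congr 1
    exact Finset.filter_congr fun x _ => hQ1 x
  let P2 := P.filter fun j => Q2 (f j)
  let P1 := P.filter fun j => Q1 (f (j + 1))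
  have hP2 : b ≤ P2.card + Ou.card := by
    rw [← hc2]
    refine (Finset.card_le_card ?_).trans (Finset.card_union_le _ _)
    intro j hj
    obtain ⟨h1, h2⟩ := Finset.mem_filter.1 hj
    rw [Finset.mem_union]
    by_cases h : C (f (j + 1))
    · left
      exact Finset.mem_filter.2 ⟨Finset.mem_filter.2 ⟨h1, hQ2C _ h2, h⟩, h2⟩
    · right
      exact Finset.mem_filter.2 ⟨h1, hQ2C _ h2, h⟩
  have hP1 : b ≤ P1.card + In.card := by
    rw [← hc1]
    refine (Finset.card_le_card ?_).trans (Finset.card_union_le _ _)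
    intro j hj
    obtain ⟨h1, h2⟩ := Finset.mem_filter.1 hj
    rw [Finset.mem_union]
    by_cases h : C (f j)
    · left
      exact Finset.mem_filter.2 ⟨Finset.mem_filter.2 ⟨h1, h, hQ1C _ h2⟩, h2⟩
    · right
      exact Finset.mem_filter.2 ⟨h1, h, hQ1C _ h2⟩
  have hkP : k ∈ P := Finset.mem_filter.2 ⟨Finset.mem_range.2 hk, huC, hvC⟩
  -- a common index
  have hcommon : ∃ j, j ∈ P1 ∧ j ∈ P2 := by
    by_contra hno
    push Not at hno
    have hdis : Disjoint P1 P2 := Finset.disjoint_left.2 hno
    have hsub : P1 ∪ P2 ⊆ P.erase k := by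
      intro j hj
      rw [Finset.mem_union] at hj
      rw [Finset.mem_erase]
      rcases hj with hj | hj
      · obtain ⟨h1, h2⟩ := Finset.mem_filter.1 hj
        refine ⟨?_, h1⟩
        rintro rfl
        exact ((hQ1 _).1 h2).2 rfl
      · obtain ⟨h1, h2⟩ := Finset.mem_filter.1 hj
        refine ⟨?_, h1⟩
        rintro rfl
        exact ((hQ2 _).1 h2).2 rfl
    have h1 := Finset.card_le_card hsub
    rw [Finset.card_union_of_disjoint hdis, Finset.card_erase_of_mem hkP] at h1
    have h2 : 1 ≤ P.card := Finset.card_pos.2 ⟨k, hkP⟩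
    omega
  obtain ⟨j, hj1, hj2⟩ := hcommon
  obtain ⟨hjP, hq1⟩ := Finset.mem_filter.1 hj1
  obtain ⟨_, hq2⟩ := Finset.mem_filter.1 hj2
  have hjn : j < n := Finset.mem_range.1 (Finset.mem_filter.1 hjP).1
  have hjk : j ≠ k := by
    rintro rfl
    exact ((hQ2 _).1 hq2).2 rfl
  have hjC : C (f j) := hQ2C _ hq2
  have hjC' : C (f (j + 1)) := hQ1C _ hq1
  have nb2 : ¬ Bad H A (f k) (f j) := fun h => h.2 ((hQ2 _).1 hq2).1.1
  have nb1 : ¬ Bad H A (f (k + 1)) (f (j + 1)) := fun h => h.2 ((hQ1 _).1 hq1).1.1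
  have c2 : (f k : G ⧸ H) = (f j : G ⧸ H) := ((hC _).1 hjC).symm
  have c1 : (f (k + 1) : G ⧸ H) = (f (j + 1) : G ⧸ H) :=
    ((hC _).1 hvC).trans ((hC _).1 hjC').symm
  rcases Nat.lt_or_ge j k with hlt | hge
  · refine ⟨flip f j k, flip_tour H hE.inv hf hlt hk c2.symm c1.symm, ?_⟩
    exact flip_cost H A hA hlt hk (fun h => nb2 (h.symm H A hA)) (fun h => nb1 (h.symm H A hA))
      (Or.inr rfl) hbad
  · have hlt : k < j := by omega
    refine ⟨flip f k j, flip_tour H hE.inv hf hlt hjn c2 c1, ?_⟩
    exact flip_cost H A hA hlt hjn nb2 nb1 (Or.inl rfl) hbad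

/-- a tour without bad steps -/
theorem exists_good (hA : ∀ x ∈ A, x⁻¹ ∈ A) {N : ℕ} {io : G → G} (hE : EvenMatching H A N io)
    (hB : Nat.card H + N / 2 ≤ 2 * (univ.filter fun x : G => (x ∈ A ∧ x ∈ H) ∧ x ≠ 1).card)
    (hn : 3 ≤ Nat.card G) :
    ∃ f : ℕ → G, (∀ i < Nat.card G, ∀ j < Nat.card G, f i = f j → i = j) ∧
      f (Nat.card G) = f 0 ∧ ∀ j < Nat.card G, (f j)⁻¹ * f (j + 1) ∈ A := by
  have key : ∀ m : ℕ, ∀ f : ℕ → G, Tour H io f → cost H A f ≤ m →
      ∃ f' : ℕ → G, Tour H io f' ∧ ∀ k < Nat.card G, ¬ Bad H A (f' k) (f' (k + 1)) := by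
    intro m
    induction m with
    | zero =>
      intro f hf hm
      refine ⟨f, hf, ?_⟩
      intro k hk hbad
      have : k ∈ (∅ : Finset ℕ) := by
        rw [← Finset.card_eq_zero.1 (Nat.le_zero.1 hm)]
        exact Finset.mem_filter.2 ⟨Finset.mem_range.2 hk, hbad⟩
      exact absurd this (Finset.notMem_empty _)
    | succ m ih =>
      intro f hf hm
      by_cases h : ∃ k, k < Nat.card G ∧ Bad H A (f k) (f (k + 1))
      · obtain ⟨k, hk, hbad⟩ := h
        obtain ⟨f', hf', hlt⟩ := improve H A hA hE hB hn hf hk hbad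
        exact ih f' hf' (by omega)
      · push Not at h
        exact ⟨f, hf, h⟩
  obtain ⟨f0, hf0⟩ := exists_tour H A hE
  obtain ⟨f, hf, hgood⟩ := key _ f0 hf0 le_rfl
  refine ⟨f, hf.inj, hf.close, ?_⟩
  intro j hj
  rcases hf.rel j hj with h | ⟨h, h'⟩
  · by_contra hA'
    exact hgood j hj ⟨h, hA'⟩
  · rw [h]
    exact hE.step _ h'

end Pool.Agent.E8helper62.HL
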