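import Pool.Agent.E8helper62.HL.Factor

/-!
The matching as an involution, and the cycle through all cosets.
-/

set_option autoImplicit false
set_option linter.unusedSectionVars false

namespace Pool.Agent.E8helper62.HL

open Finset

attribute [local instance] Classical.propDecidable

variable {G : Type*} [Group G] [Fintype G] (H : Subgroup G) (A : Set G) (c : G → ℕ)

/-- a matching between cosets by elements of `A`, even at every coset, at most `N` elements of
every coset matched, connecting the cosets -/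
structure EvenMatching (N : ℕ) (io : G → G) : Prop where
  inv : ∀ x, io (io x) = x
  coset : ∀ x, io x ≠ x → ((io x : G) : G ⧸ H) ≠ (x : G ⧸ H)
  step : ∀ x, io x ≠ x → x⁻¹ * io x ∈ A
  even : ∀ v : G ⧸ H, Even (univ.filter fun x : G => (x : G ⧸ H) = v ∧ io x ≠ x).card
  few : ∀ v : G ⧸ H, (univ.filter fun x : G => (x : G ⧸ H) = v ∧ io x ≠ x).card ≤ N
  conn : ∀ Y : Set G, (∀ x ∈ Y, ∀ h ∈ H, x * h ∈ Y) → (∀ x ∈ Y, io x ∈ Y) → Y.Nonempty →
    Y = Set.univ

theorem exists_io (hA : ∀ x ∈ A, x⁻¹ ∈ A) (N m : ℕ) (hc : ∀ x, c x < N)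
    (hm : ∀ v : G ⧸ H, ∀ a : ℕ, (univ.filter fun g : G => (g : G ⧸ H) = v ∧ c g = a).card ≤ m)
    (hmH : 18 * m ≤ Nat.card H) (hgen : ∀ M : Subgroup G, H ≤ M → A ⊆ M → M = ⊤) :
    ∃ io : G → G, EvenMatching H A N io := by
  obtain ⟨T, hT1, hT2, hT3, hT4⟩ := exists_edges H A c m hm hmH hgen
  -- an element is an end of at most one edge
  have hc1 : ∀ e : EE A, cell H c (e1 A e) ∈ ee H A c e := fun e => Finset.mem_insert_self _ _
  have hc2 : ∀ e : EE A, cell H c (e2 A e) ∈ ee H A c e := fun e =>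
    Finset.mem_insert_of_mem (Finset.mem_singleton_self _)
  have huniq : ∀ e ∈ T, ∀ e' ∈ T, ∀ z, z ∈ ee H A c e → z ∈ ee H A c e' → e = e' := by
    intro e he e' he' z hz hz'
    by_contra h
    exact Finset.disjoint_left.1 (hT2 e he e' he' h) hz hz'
  have h11 : ∀ e ∈ T, ∀ e' ∈ T, cell H c (e1 A e) = cell H c (e1 A e') → e = e' :=
    fun e he e' he' h => huniq e he e' he' _ (hc1 e) (h ▸ hc1 e')
  have h22 : ∀ e ∈ T, ∀ e' ∈ T, cell H c (e2 A e) = cell H c (e2 A e') → e = e' :=
    fun e he e' he' h => huniq e he e' he' _ (hc2 e) (h ▸ hc2 e')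
  have h12 : ∀ e ∈ T, ∀ e' ∈ T, cell H c (e1 A e) ≠ cell H c (e2 A e') := by
    intro e he e' he' h
    have := huniq e he e' he' _ (hc1 e) (h ▸ hc2 e')
    subst this
    exact hT1 e he (congrArg Prod.fst h)
  let M : G → G → Prop := fun x y => ∃ e ∈ T, (x = e1 A e ∧ y = e2 A e) ∨ (x = e2 A e ∧ y = e1 A e)
  have hMs : ∀ x y, M x y → M y x := by
    rintro x y ⟨e, he, h | h⟩
    · exact ⟨e, he, Or.inr ⟨h.2, h.1⟩⟩
    · exact ⟨e, he, Or.inl ⟨h.2, h.1⟩⟩
  have hMu : ∀ x y y', M x y → M x y' → y = y' := by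
    rintro x y y' ⟨e, he, h⟩ ⟨e', he', h'⟩
    rcases h with ⟨rfl, rfl⟩ | ⟨rfl, rfl⟩ <;> rcases h' with ⟨h1, rfl⟩ | ⟨h1, rfl⟩
    · rw [h11 e he e' he' (by rw [h1])]
    · exact absurd (by rw [h1]) (h12 e he e' he')
    · exact absurd (by rw [h1]) (h12 e' he' e he)
    · rw [h22 e he e' he' (by rw [h1])]
  have hMc : ∀ x y, M x y → ((y : G) : G ⧸ H) ≠ (x : G ⧸ H) := by
    rintro x y ⟨e, he, ⟨rfl, rfl⟩ | ⟨rfl, rfl⟩⟩
    · exact (hT1 e he).symm
    · exact hT1 e he
  have hMA : ∀ x y, M x y → x⁻¹ * y ∈ A := by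
    rintro x y ⟨e, he, ⟨rfl, rfl⟩ | ⟨rfl, rfl⟩⟩
    · have : (e1 A e)⁻¹ * e2 A e = e.2.2 := by unfold e1 e2; group
      rw [this]; exact e.2.2.2
    · have : (e2 A e)⁻¹ * e1 A e = ((e.2.2 : G))⁻¹ := by unfold e1 e2; group
      rw [this]; exact hA _ e.2.2.2
  let io : G → G := fun x => if h : ∃ y, M x y then h.choose else x
  have hio : ∀ x y, M x y → io x = y := by
    intro x y h
    have hex : ∃ y, M x y := ⟨y, h⟩
    simp only [io, dif_pos hex]
    exact hMu x _ _ hex.choose_spec h
  have hio0 : ∀ x, (¬ ∃ y, M x y) → io x = x := by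
    intro x h
    simp only [io, dif_neg h]
  have hiff : ∀ x, io x ≠ x ↔ ∃ y, M x y := by
    intro x
    constructor
    · intro h
      by_contra h'
      exact h (hio0 x h')
    · rintro ⟨y, hy⟩ h
      rw [hio x y hy] at h
      exact hMc x y hy (by rw [h])
  have hspec : ∀ x, io x ≠ x → M x (io x) := by
    intro x hx
    obtain ⟨y, hy⟩ := (hiff x).1 hx
    rwa [hio x y hy]
  -- the matched elements of a coset
  have hcount : ∀ v : G ⧸ H, (univ.filter fun x : G => (x : G ⧸ H) = v ∧ io x ≠ x).card =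
      (T.filter fun e => ((e1 A e : G) : G ⧸ H) = v).card +
      (T.filter fun e => ((e2 A e : G) : G ⧸ H) = v).card := by
    intro v
    have e : (univ.filter fun x : G => (x : G ⧸ H) = v ∧ io x ≠ x) =
        (T.filter fun e => ((e1 A e : G) : G ⧸ H) = v).image (e1 A) ∪
        (T.filter fun e => ((e2 A e : G) : G ⧸ H) = v).image (e2 A) := by
      ext x
      simp only [Finset.mem_filter, Finset.mem_univ, true_and, Finset.mem_union, Finset.mem_image,
        hiff]
      constructor
      · rintro ⟨hv, y, e, he, ⟨rfl, rfl⟩ | ⟨rfl, rfl⟩⟩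
        · exact Or.inl ⟨e, ⟨he, hv⟩, rfl⟩
        · exact Or.inr ⟨e, ⟨he, hv⟩, rfl⟩
      · rintro (⟨e, ⟨he, hv⟩, rfl⟩ | ⟨e, ⟨he, hv⟩, rfl⟩)
        · exact ⟨hv, _, e, he, Or.inl ⟨rfl, rfl⟩⟩
        · exact ⟨hv, _, e, he, Or.inr ⟨rfl, rfl⟩⟩
    rw [e, Finset.card_union_of_disjoint, Finset.card_image_of_injOn, Finset.card_image_of_injOn]
    · intro a ha b hb h
      rw [Finset.mem_coe, Finset.mem_filter] at ha hb
      exact h22 a ha.1 b hb.1 (by rw [h])
    · intro a ha b hb h
      rw [Finset.mem_coe, Finset.mem_filter] at ha hb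
      exact h11 a ha.1 b hb.1 (by rw [h])
    · rw [Finset.disjoint_left]
      intro x hx hx'
      obtain ⟨a, ha, rfl⟩ := Finset.mem_image.1 hx
      obtain ⟨b, hb, h⟩ := Finset.mem_image.1 hx'
      exact h12 a (Finset.mem_filter.1 ha).1 b (Finset.mem_filter.1 hb).1 (by rw [h])
  refine ⟨io, ⟨?_, ?_, ?_, ?_, ?_, ?_⟩⟩
  · intro x
    by_cases hx : ∃ y, M x y
    · obtain ⟨y, hy⟩ := hx
      rw [hio x y hy, hio y x (hMs x y hy)]
    · rw [hio0 x hx, hio0 x hx]
  · intro x hx
    exact hMc _ _ (hspec x hx)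
  · intro x hx
    exact hMA _ _ (hspec x hx)
  · intro v
    rw [hcount, ← ZMod.natCast_eq_zero_iff_even]
    have h := congrFun hT3 v
    rw [Finset.sum_apply] at h
    rw [Finset.card_filter, Finset.card_filter, ← Finset.sum_add_distrib]
    push_cast
    refine Eq.trans (Finset.sum_congr rfl fun e _ => ?_) h
    unfold dl de e1 e2
    simp only [Pi.add_apply, Pi.single_apply, eq_comm]
  · intro v
    have : (univ.filter fun x : G => (x : G ⧸ H) = v ∧ io x ≠ x).card ≤ (Finset.range N).card := by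
      refine Finset.card_le_card_of_injOn c ?_ ?_
      · intro x _
        exact Finset.mem_coe.2 (Finset.mem_range.2 (hc x))
      · intro x hx y hy hxy
        rw [Finset.mem_coe, Finset.mem_filter, hiff] at hx hy
        obtain ⟨_, hxv, x', e, he, hxe⟩ := hx
        obtain ⟨_, hyv, y', e', he', hye⟩ := hy
        have hcell : cell H c x = cell H c y := Prod.ext (hxv.trans hyv.symm) hxy
        rcases hxe with ⟨rfl, _⟩ | ⟨rfl, _⟩ <;> rcases hye with ⟨rfl, _⟩ | ⟨rfl, _⟩
        · rw [h11 e he e' he' hcell]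
        · exact absurd hcell (h12 e he e' he')
        · exact absurd hcell.symm (h12 e' he' e he)
        · rw [h22 e he e' he' hcell]
    rwa [Finset.card_range] at this
  · intro Y hY1 hY2 hY3
    apply hT4 Y hY1 _ hY3
    intro e he
    have hM1 : M (e1 A e) (e2 A e) := ⟨e, he, Or.inl ⟨rfl, rfl⟩⟩
    constructor
    · intro h
      rw [← hio _ _ hM1]
      exact hY2 _ h
    · intro h
      rw [← hio _ _ (hMs _ _ hM1)]
      exact hY2 _ h

/-- a single cycle through `G`, all of whose steps stay in a coset of `H` or follow `io` -/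
theorem exists_cycle {N : ℕ} {io : G → G} (hE : EvenMatching H A N io) :
    ∃ σ : Equiv.Perm G, (∀ x, σ.SameCycle 1 x) ∧
      ∀ x, ((σ x : G) : G ⧸ H) = (x : G ⧸ H) ∨ (σ x = io x ∧ io x ≠ x) := by
  let X := {x : G // io x ≠ x}
  have hioX : ∀ x, io x ≠ x → io (io x) ≠ io x := by
    intro x hx h
    rw [hE.inv] at h
    exact hx h.symm
  let f : Equiv.Perm X :=
    { toFun := fun x => ⟨io x.1, hioX _ x.2⟩
      invFun := fun x => ⟨io x.1, hioX _ x.2⟩
      left_inv := fun x => Subtype.ext (hE.inv _)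
      right_inv := fun x => Subtype.ext (hE.inv _) }
  have hfam : ∀ v : G ⧸ H, ∃ k : G → G, ∀ x ∈ (univ.filter fun x : G => (x : G ⧸ H) = v ∧ io x ≠ x),
      k x ∈ (univ.filter fun x : G => (x : G ⧸ H) = v ∧ io x ≠ x) ∧ k x ≠ x ∧ k (k x) = x := by
    intro v
    obtain ⟨n, hn⟩ := hE.even v
    exact even_inv n _ (by omega)
  choose k hk using hfam
  have hk' : ∀ x : G, io x ≠ x → ((k (x : G ⧸ H) x : G) : G ⧸ H) = (x : G ⧸ H) ∧
      io (k (x : G ⧸ H) x) ≠ k (x : G ⧸ H) x ∧ k (x : G ⧸ H) x ≠ x ∧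
      k (x : G ⧸ H) (k (x : G ⧸ H) x) = x := by
    intro x hx
    obtain ⟨h1, h2, h3⟩ := hk (x : G ⧸ H) x (Finset.mem_filter.2 ⟨Finset.mem_univ _, rfl, hx⟩)
    obtain ⟨_, h4, h5⟩ := Finset.mem_filter.1 h1
    exact ⟨h4, h5, h2, h3⟩
  let ka : G → G := fun x => k (x : G ⧸ H) x
  have hka1 : ∀ x, io x ≠ x → ((ka x : G) : G ⧸ H) = (x : G ⧸ H) := fun x hx => (hk' x hx).1
  have hka2 : ∀ x, io x ≠ x → io (ka x) ≠ ka x := fun x hx => (hk' x hx).2.1
  have hka3 : ∀ x, io x ≠ x → ka x ≠ x := fun x hx => (hk' x hx).2.2.1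
  have hka4 : ∀ x, io x ≠ x → ka (ka x) = x := by
    intro x hx
    change k ((ka x : G) : G ⧸ H) (ka x) = x
    rw [hka1 x hx]
    exact (hk' x hx).2.2.2
  let g : Equiv.Perm X :=
    { toFun := fun x => ⟨ka x.1, hka2 _ x.2⟩
      invFun := fun x => ⟨ka x.1, hka2 _ x.2⟩
      left_inv := fun x => Subtype.ext (hka4 _ x.2)
      right_inv := fun x => Subtype.ext (hka4 _ x.2) }
  obtain ⟨O', hO1, hO2⟩ := transversal f g
    (by ext x; simp [f, hE.inv]) (by ext x; simp only [g, Equiv.Perm.mul_apply]; exact hka4 _ x.2)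
    (fun x h => x.2 (congrArg Subtype.val h)) (fun x h => hka3 _ x.2 (congrArg Subtype.val h))
  let O : Set G := {x | ∃ h : io x ≠ x, (⟨x, h⟩ : X) ∈ O'}
  have hOX : ∀ x ∈ O, io x ≠ x := fun x hx => hx.1
  have hOio : ∀ x, io x ≠ x → (x ∈ O ↔ io x ∉ O) := by
    intro x hx
    have h1 := hO1 ⟨x, hx⟩
    constructor
    · rintro ⟨h, h2⟩ ⟨h3, h4⟩
      exact h1.1 h2 h4
    · intro h
      exact ⟨hx, h1.2 fun h2 => h ⟨hioX x hx, h2⟩⟩
  have hOka : ∀ x, io x ≠ x → (x ∈ O ↔ ka x ∉ O) := by
    intro x hx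
    have h1 := hO2 ⟨x, hx⟩
    constructor
    · rintro ⟨h, h2⟩ ⟨h3, h4⟩
      exact h1.1 h2 h4
    · intro h
      exact ⟨hx, h1.2 fun h2 => h ⟨hka2 x hx, h2⟩⟩
  -- the initial permutation
  let s : G → G := fun x => if x ∈ O then io x else if io x ≠ x then ka x else x
  have hs1 : ∀ x ∈ O, s x = io x := fun x hx => if_pos hx
  have hs2 : ∀ x, x ∉ O → io x ≠ x → s x = ka x := fun x hx hx' => by
    simp only [s, if_neg hx, if_pos hx']
  have hs3 : ∀ x, io x = x → s x = x := fun x hx => by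
    have : x ∉ O := fun h => hOX x h hx
    simp only [s, if_neg this]
    rw [if_neg (not_not.2 hx)]
  have hsinj : Function.Injective s := by
    intro x y hxy
    by_cases hx : io x = x
    · rw [hs3 x hx] at hxy
      by_cases hy : io y = y
      · rw [hs3 y hy] at hxy; exact hxy
      · exfalso
        by_cases hyO : y ∈ O
        · rw [hs1 y hyO] at hxy
          rw [hxy] at hx
          exact hioX y hy hx
        · rw [hs2 y hyO hy] at hxy
          rw [hxy] at hx
          exact hka2 y hy hx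
    · by_cases hxO : x ∈ O
      · rw [hs1 x hxO] at hxy
        by_cases hy : io y = y
        · exfalso
          rw [hs3 y hy] at hxy
          rw [← hxy] at hy
          exact hioX x hx hy
        · by_cases hyO : y ∈ O
          · rw [hs1 y hyO] at hxy
            rw [← hE.inv x, hxy, hE.inv]
          · exfalso
            rw [hs2 y hyO hy] at hxy
            have h1 : ka y ∈ O := by
              by_contra h
              exact hyO ((hOka y hy).2 h)
            rw [← hxy] at h1
            exact (hOio x hx).1 hxO h1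
      · rw [hs2 x hxO hx] at hxy
        have h1 : ka x ∈ O := by
          by_contra h
          exact hxO ((hOka x hx).2 h)
        by_cases hy : io y = y
        · exfalso
          rw [hs3 y hy] at hxy
          rw [← hxy] at hy
          exact hka2 x hx hy
        · by_cases hyO : y ∈ O
          · exfalso
            rw [hs1 y hyO] at hxy
            rw [hxy] at h1
            exact (hOio y hy).1 hyO h1
          · rw [hs2 y hyO hy] at hxy
            rw [← hka4 x hx, hxy, hka4 y hy]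
  let s0 : Equiv.Perm G := Equiv.ofBijective s (Finite.injective_iff_bijective.1 hsinj)
  let T : Equiv.Perm G → Prop := fun σ => (∀ x ∈ O, σ x = io x) ∧
    ∀ x, x ∉ O → ((σ x : G) : G ⧸ H) = (x : G ⧸ H)
  have hT0 : T s0 := by
    refine ⟨fun x hx => hs1 x hx, fun x hx => ?_⟩
    change ((s x : G) : G ⧸ H) = _
    by_cases h : io x = x
    · rw [hs3 x h]
    · rw [hs2 x hx h]; exact hka1 x h
  obtain ⟨σ, hσ, hmax⟩ := Finset.exists_max_image (univ.filter T)
    (fun σ => (univ.filter fun z => σ.SameCycle 1 z).card)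
    ⟨s0, by simp only [Finset.mem_filter, Finset.mem_univ, true_and]; exact hT0⟩
  obtain ⟨hσ1, hσ2⟩ : T σ := (Finset.mem_filter.1 hσ).2
  have hmax' : ∀ τ, T τ → (univ.filter fun z => τ.SameCycle 1 z).card ≤
      (univ.filter fun z => σ.SameCycle 1 z).card := fun τ h =>
    hmax τ (by simp only [Finset.mem_filter, Finset.mem_univ, true_and]; exact h)
  refine ⟨σ, ?_, ?_⟩
  · -- predecessors
    have hpre : ∀ z, σ.symm z ∉ O → ((σ.symm z : G) : G ⧸ H) = (z : G ⧸ H) := by
      intro z hz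
      have := hσ2 _ hz
      rw [Equiv.apply_symm_apply] at this
      exact this.symm
    have hpO : ∀ z ∈ O, σ.symm z ∉ O := by
      intro z hz h
      have h1 := hσ1 _ h
      rw [Equiv.apply_symm_apply] at h1
      have h2 := (hOio _ (hOX _ h)).1 h
      rw [← h1] at h2
      exact h2 hz
    -- a representative outside `O` in the same coset and the same cycle
    have hrep : ∀ z : G, ∃ w : G, w ∉ O ∧ (w : G ⧸ H) = (z : G ⧸ H) ∧ σ.SameCycle w z := by
      intro z
      by_cases hz : z ∈ O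
      · refine ⟨σ.symm z, hpO z hz, hpre z (hpO z hz), ?_⟩
        exact (Equiv.Perm.sameCycle_symm_apply_left).2 (Equiv.Perm.SameCycle.refl _ _)
      · exact ⟨z, hz, rfl, Equiv.Perm.SameCycle.refl _ _⟩
    by_contra hno
    have hY : {z | σ.SameCycle 1 z} ≠ Set.univ := by
      intro h
      apply hno
      intro x
      have : x ∈ {z | σ.SameCycle 1 z} := by rw [h]; exact Set.mem_univ _
      exact this
    have hex : ∃ x y : G, x ∉ O ∧ y ∉ O ∧ (x : G ⧸ H) = (y : G ⧸ H) ∧ σ.SameCycle 1 x ∧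
        ¬ σ.SameCycle 1 y := by
      by_contra hcon
      push Not at hcon
      apply hY
      apply hE.conn
      · intro z hz h hh
        obtain ⟨w, hw1, hw2, hw3⟩ := hrep z
        obtain ⟨w', hw1', hw2', hw3'⟩ := hrep (z * h)
        have e : (w : G ⧸ H) = (w' : G ⧸ H) := by
          rw [hw2, hw2', QuotientGroup.mk_mul_of_mem z hh]
        exact (hcon w w' hw1 hw1' e (hz.trans hw3.symm)).trans hw3'
      · intro z hz
        by_cases hzO : z ∈ O
        · have h1 : σ.SameCycle z (io z) := by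
            rw [← hσ1 z hzO]
            exact (Equiv.Perm.sameCycle_apply_right).2 (Equiv.Perm.SameCycle.refl _ _)
          exact hz.trans h1
        · by_cases hzX : io z = z
          · rw [hzX]; exact hz
          · have h0 : io z ∈ O := by
              by_contra h
              exact hzO ((hOio z hzX).2 h)
            have h1 : σ.SameCycle (io z) z := by
              have h2 := hσ1 _ h0
              rw [hE.inv] at h2
              conv_rhs => rw [← h2]
              exact (Equiv.Perm.sameCycle_apply_right).2 (Equiv.Perm.SameCycle.refl _ _)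
            exact hz.trans h1.symm
      · exact ⟨1, Equiv.Perm.SameCycle.refl _ _⟩
    obtain ⟨x, y, hxO, hyO, hxy, hx, hy⟩ := hex
    have hnxy : ¬ σ.SameCycle x y := fun h => hy (hx.trans h)
    have hT' : T (σ * Equiv.swap x y) := by
      refine ⟨?_, ?_⟩
      · intro z hz
        rw [Equiv.Perm.mul_apply, Equiv.swap_apply_of_ne_of_ne (by rintro rfl; exact hxO hz)
          (by rintro rfl; exact hyO hz)]
        exact hσ1 z hz
      · intro z hz
        rw [Equiv.Perm.mul_apply]
        by_cases hzx : z = x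
        · rw [hzx, Equiv.swap_apply_left, hσ2 y hyO, hxy]
        · by_cases hzy : z = y
          · rw [hzy, Equiv.swap_apply_right, hσ2 x hxO, hxy]
          · rw [Equiv.swap_apply_of_ne_of_ne hzx hzy]
            exact hσ2 z hz
    have h1 := hmax' _ hT'
    have hx1 : (σ * Equiv.swap x y).SameCycle 1 x :=
      (merge_same σ hnxy (Or.inl hx.symm)).symm
    have h2 : (univ.filter fun z => σ.SameCycle 1 z) ⊂
        (univ.filter fun z => (σ * Equiv.swap x y).SameCycle 1 z) := by
      refine ⟨?_, ?_⟩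
      · intro z hz
        rw [Finset.mem_filter] at hz ⊢
        exact ⟨Finset.mem_univ _, hx1.trans (merge_same σ hnxy (Or.inl (hx.symm.trans hz.2)))⟩
      · intro h
        have h3 : y ∈ (univ.filter fun z => (σ * Equiv.swap x y).SameCycle 1 z) := by
          rw [Finset.mem_filter]
          exact ⟨Finset.mem_univ _,
            hx1.trans (merge_same σ hnxy (Or.inr (Equiv.Perm.SameCycle.refl _ _)))⟩
        exact hy (Finset.mem_filter.1 (h h3)).2
    have h3 := Finset.card_lt_card h2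
    omega
  · intro x
    by_cases hx : x ∈ O
    · right
      exact ⟨hσ1 x hx, hOX x hx⟩
    · left
      exact hσ2 x hx

end Pool.Agent.E8helper62.HL
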