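import Pool.Agent.E8helper62.HL.Parts
import Pool.Agent.E8helper62.HL.MH

/-!
Two edge-disjoint spanning trees of the coset graph, all of whose edges have their ends in
different cells; the resulting connected even set of edges.
-/

set_option autoImplicit false
set_option linter.unusedSectionVars false

namespace Pool.Agent.E8helper62.HL

open Finset

attribute [local instance] Classical.propDecidable

variable {G : Type*} [Group G] [Fintype G] (H : Subgroup G) (A : Set G) (c : G → ℕ)

/-- functions on the cosets -/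
abbrev W1 := (G ⧸ H) → ZMod 2

/-- unit vectors -/
noncomputable def de (g : G) : W1 H := Pi.single (g : G ⧸ H) 1

/-- the vector of the edge `{g, g a}` -/
noncomputable def dl (g a : G) : W1 H := de H g + de H (g * a)

/-- the ground set: two copies of the edges -/
abbrev EE := Bool × G × A

/-- the configuration -/
noncomputable def xx (e : EE A) : W1 H × W1 H :=
  if e.1 then (0, dl H e.2.1 e.2.2) else (dl H e.2.1 e.2.2, 0)

/-- the cells of the ends -/
noncomputable def cell (g : G) : (G ⧸ H) × ℕ := ((g : G ⧸ H), c g)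

noncomputable def ee (e : EE A) : Finset ((G ⧸ H) × ℕ) :=
  {cell H c e.2.1, cell H c (e.2.1 * e.2.2)}

theorem ee_nonempty (e : EE A) : (ee H A c e).Nonempty := ⟨_, Finset.mem_insert_self _ _⟩

theorem ee_card (e : EE A) : (ee H A c e).card ≤ 2 := Finset.card_le_two

theorem sub_de (g g' : G) : de H g - de H g' = de H g + de H g' := by
  ext v
  simp only [Pi.sub_apply, Pi.add_apply]
  exact CharTwo.sub_eq_add _ _

theorem de_mul (g h : G) (hh : h ∈ H) : de H (g * h) = de H g := by
  unfold de
  congr 1
  rw [QuotientGroup.mk_mul_of_mem g hh]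

theorem finrank_W1 : Module.finrank (ZMod 2) (W1 H) = Fintype.card (G ⧸ H) :=
  Module.finrank_fintype_fun_eq_card _

/-- sum of the coordinates -/
noncomputable def sumf : W1 H →ₗ[ZMod 2] ZMod 2 where
  toFun f := ∑ v, f v
  map_add' f g := by simp [Finset.sum_add_distrib]
  map_smul' a f := by simp [Finset.mul_sum]

theorem sumf_de (g : G) : sumf H (de H g) = 1 := by
  change ∑ v, (Pi.single (g : G ⧸ H) (1 : ZMod 2) : W1 H) v = 1
  rw [Finset.sum_pi_single']
  simp

theorem sumf_dl (g a : G) : sumf H (dl H g a) = 0 := by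
  unfold dl
  rw [map_add, sumf_de, sumf_de]
  decide

theorem finrank_ker : Module.finrank (ZMod 2) (LinearMap.ker (sumf H)) + 1 ≤
    Fintype.card (G ⧸ H) := by
  have h := LinearMap.finrank_range_add_finrank_ker (sumf H)
  rw [finrank_W1] at h
  have h1 : 1 ≤ Module.finrank (ZMod 2) (LinearMap.range (sumf H)) := by
    rw [Nat.succ_le_iff, Module.finrank_pos_iff]
    refine ⟨⟨0, ⟨1, ⟨de H 1, sumf_de H 1⟩⟩, ?_⟩⟩
    intro h
    have := congrArg Subtype.val h
    simp at this
  omega

/-- the span of everything is small -/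
theorem finrank_all : Module.finrank (ZMod 2) (sp (ZMod 2) (xx H A) univ) + 2 ≤
    2 * Fintype.card (G ⧸ H) := by
  let Z := LinearMap.ker (sumf H)
  let f : (Z × Z) →ₗ[ZMod 2] (W1 H × W1 H) := Z.subtype.prodMap Z.subtype
  have h1 : sp (ZMod 2) (xx H A) univ ≤ LinearMap.range f := by
    apply sp_le
    rintro ⟨b, g, a⟩ _
    have hz : dl H g a ∈ Z := LinearMap.mem_ker.2 (sumf_dl H g a)
    cases b
    · exact ⟨(⟨_, hz⟩, 0), by simp [f, xx]⟩
    · exact ⟨(0, ⟨_, hz⟩), by simp [f, xx]⟩
  have h2 := Submodule.finrank_mono h1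
  have h3 := LinearMap.finrank_range_le f
  rw [Module.finrank_prod] at h3
  have h4 : Module.finrank (ZMod 2) Z + 1 ≤ Fintype.card (G ⧸ H) := finrank_ker H
  omega

theorem card_le_of_small {R : Finset (EE A)} :
    Module.finrank (ZMod 2) (sp (ZMod 2) (xx H A) R) ≤ R.card := by
  unfold sp
  have : (xx H A '' (R : Set (EE A))) = ((R.image (xx H A) : Finset _) : Set (W1 H × W1 H)) := by
    rw [Finset.coe_image]
  rw [this]
  exact (finrank_span_finset_le_card _).trans Finset.card_image_le

theorem cond (m : ℕ) (hm : ∀ v : G ⧸ H, ∀ a : ℕ,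
      (univ.filter fun g : G => (g : G ⧸ H) = v ∧ c g = a).card ≤ m)
    (hmH : 18 * m ≤ Nat.card H) (hgen : ∀ M : Subgroup G, H ≤ M → A ⊆ M → M = ⊤) :
    Cond (ZMod 2) (xx H A) (ee H A c) := by
  intro R n _ hRn U hU
  by_contra hno
  push Not at hno
  have hno' : ∀ w, Disjoint (ee H A c w) U → xx H A w ∈ sp (ZMod 2) (xx H A) R := by
    intro w hw
    by_contra h
    exact hno w h hw
  -- the covered elements
  set Ut : Finset G := univ.filter fun g => cell H c g ∈ U with hUt
  have hUtc : Ut.card ≤ m * U.card := by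
    have e : Ut = U.biUnion fun z => univ.filter fun g : G => (g : G ⧸ H) = z.1 ∧ c g = z.2 := by
      ext g
      simp only [hUt, Finset.mem_filter, Finset.mem_univ, true_and, Finset.mem_biUnion]
      constructor
      · intro h
        exact ⟨_, h, rfl, rfl⟩
      · rintro ⟨z, hz, h1, h2⟩
        have : cell H c g = z := Prod.ext h1 h2
        rwa [this]
    rw [e]
    refine Finset.card_biUnion_le.trans ?_
    calc ∑ z ∈ U, (univ.filter fun g : G => (g : G ⧸ H) = z.1 ∧ c g = z.2).card
        ≤ ∑ _z ∈ U, m := Finset.sum_le_sum fun z _ => hm z.1 z.2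
      _ = m * U.card := by simp [mul_comm]
  -- the span of the edges avoiding `U`
  let Y1 : Submodule (ZMod 2) (W1 H) :=
    Submodule.span (ZMod 2) {f | ∃ g, ∃ a ∈ A, g ∉ Ut ∧ g * a ∉ Ut ∧ f = dl H g a}
  let P : G → W1 H ⧸ Y1 := fun g => Y1.mkQ (de H g)
  have hPH : ∀ x, ∀ h ∈ H, P (x * h) = P x := by
    intro x h hh
    simp only [P, de_mul H x h hh]
  have hPU : ∀ x, ∀ s ∈ A, P x ≠ P (x * s) → x ∈ Ut ∨ x * s ∈ Ut := by
    intro x s hs hne
    by_contra hcon
    push Not at hcon
    apply hne
    change Submodule.Quotient.mk _ = Submodule.Quotient.mk _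
    rw [Submodule.Quotient.eq, sub_de]
    exact Submodule.subset_span ⟨x, s, hs, hcon.1, hcon.2, rfl⟩
  set t := (univ.image P).card with ht
  set k := Fintype.card (G ⧸ H) with hk
  -- dimension of the quotient
  have hq : Module.finrank (ZMod 2) (W1 H ⧸ Y1) ≤ t := by
    have htop : Submodule.span (ZMod 2) (((univ.image P : Finset _) : Set (W1 H ⧸ Y1))) = ⊤ := by
      rw [eq_top_iff]
      rintro z _
      obtain ⟨f, rfl⟩ := Submodule.mkQ_surjective Y1 z
      have hf : f = ∑ v, f v • (Pi.single v (1 : ZMod 2) : W1 H) := by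
        ext w
        simp [Finset.sum_apply, Pi.single_apply]
      rw [hf, map_sum]
      apply Submodule.sum_mem
      intro v _
      rw [map_smul]
      apply Submodule.smul_mem
      apply Submodule.subset_span
      obtain ⟨g, rfl⟩ := QuotientGroup.mk_surjective v
      rw [Finset.mem_coe, Finset.mem_image]
      exact ⟨g, Finset.mem_univ _, rfl⟩
    have h1 := finrank_span_finset_le_card (R := ZMod 2) (univ.image P)
    unfold Set.finrank at h1
    rw [htop, finrank_top] at h1
    exact h1
  have hY1 : Module.finrank (ZMod 2) (W1 H ⧸ Y1) + Module.finrank (ZMod 2) Y1 = k := by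
    rw [Submodule.finrank_quotient_add_finrank, finrank_W1]
  -- the two copies lie in the span of `R`
  have hY2 : 2 * Module.finrank (ZMod 2) Y1 ≤ R.card := by
    have hl : ∀ y ∈ Y1, ((y, 0) : W1 H × W1 H) ∈ sp (ZMod 2) (xx H A) R := by
      have : Y1 ≤ (sp (ZMod 2) (xx H A) R).comap (LinearMap.inl (ZMod 2) (W1 H) (W1 H)) := by
        rw [Submodule.span_le]
        rintro f ⟨g, a, ha, h1, h2, rfl⟩
        have h3 := hno' (false, g, ⟨a, ha⟩) (by
          rw [Finset.disjoint_left]
          intro z hz hzU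
          unfold ee at hz
          rw [Finset.mem_insert, Finset.mem_singleton] at hz
          rcases hz with rfl | rfl
          · exact h1 (by rw [hUt, Finset.mem_filter]; exact ⟨Finset.mem_univ _, hzU⟩)
          · exact h2 (by rw [hUt, Finset.mem_filter]; exact ⟨Finset.mem_univ _, hzU⟩))
        simpa [xx] using h3
      exact fun y hy => this hy
    have hr : ∀ y ∈ Y1, ((0, y) : W1 H × W1 H) ∈ sp (ZMod 2) (xx H A) R := by
      have : Y1 ≤ (sp (ZMod 2) (xx H A) R).comap (LinearMap.inr (ZMod 2) (W1 H) (W1 H)) := by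
        rw [Submodule.span_le]
        rintro f ⟨g, a, ha, h1, h2, rfl⟩
        have h3 := hno' (true, g, ⟨a, ha⟩) (by
          rw [Finset.disjoint_left]
          intro z hz hzU
          unfold ee at hz
          rw [Finset.mem_insert, Finset.mem_singleton] at hz
          rcases hz with rfl | rfl
          · exact h1 (by rw [hUt, Finset.mem_filter]; exact ⟨Finset.mem_univ _, hzU⟩)
          · exact h2 (by rw [hUt, Finset.mem_filter]; exact ⟨Finset.mem_univ _, hzU⟩))
        simpa [xx] using h3
      exact fun y hy => this hy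
    let f : (Y1 × Y1) →ₗ[ZMod 2] sp (ZMod 2) (xx H A) R :=
      LinearMap.codRestrict _ (Y1.subtype.prodMap Y1.subtype) (by
        rintro ⟨⟨y, hy⟩, ⟨z, hz⟩⟩
        have := Submodule.add_mem _ (hl y hy) (hr z hz)
        simpa using this)
    have hf : Function.Injective f := by
      rintro ⟨⟨y, hy⟩, ⟨z, hz⟩⟩ ⟨⟨y', hy'⟩, ⟨z', hz'⟩⟩ h
      have h1 := congrArg Subtype.val h
      simpa [f] using h1
    have h1 := LinearMap.finrank_le_finrank_of_injective hf
    rw [Module.finrank_prod] at h1
    have h2 := card_le_of_small H A (R := R)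
    omega
  have hall := finrank_all H A
  have ht2 : n + 3 ≤ 2 * t := by omega
  have h5 := parts P H A hgen hPH Ut hPU (by omega)
  rw [← ht] at h5
  have h6 : Ut.card ≤ m * (3 * n) := hUtc.trans (Nat.mul_le_mul_left _ hU)
  have h7 : 18 * m * t ≤ Nat.card H * t := Nat.mul_le_mul_right _ hmH
  have h8 : m * (n + 3) ≤ m * (2 * t) := Nat.mul_le_mul_left _ ht2
  nlinarith

end Pool.Agent.E8helper62.HL
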